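import Pool.Agent.H89.NSL.NslI
import Pool.Agent.H65.ORD.Lfc
import Pool.Agent.H78.TT.NobT

/-!
# Kinds with the facts of the boxes

`FctI`: the facts `SupY` of the boxes, with some numbers. They give exactness (`FctI.exn`,
`FctI.exs`), no slabs (`FctI.nsl`), the closed lower bound and no labels of the target above its
level. `HypY`: the facts on the boxes of the kinds; `HasK.yv`: they give `HypV`. `hasY_KE`: the facts
on the boxes with one contact coordinate and different slopes of the coordinates of the base.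
`ExY h X`: finitely many kinds with the facts cover the windows with `X`. `NftY`: full entropy modulo
the directions from the facts and the rows; `NftY.hasK`: the hypotheses `HypT`.
-/

set_option autoImplicit false

namespace Pool.PKG

open MeasureTheory Set Filter Topology
open Pool.Agent.H49.Ent Pool.Agent.H32.Dense Pool.STK Pool.KA Pool.KSAT Pool.K2S Pool.PB
open Pool.GEN Pool.S6C Pool.STAT Pool.CHT Pool.GRW Pool.ONE Pool.STA
open Pool.LBT (LSys ThrOf)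
open Pool.LEV (Law Lv)
open Pool.ALL (RateOf)
open Pool.TOP (TopS)
open Pool.RTS (iso Diag)
open Pool.STR (NumI CellD RowD NfB AffB Rle Nw ThinAt SteepAt StaAt)
open Pool.CHB (chsysB)
open Pool.STAT.CLO Pool.MIC6
open Pool.P4 (NFc1)
open Pool.OWN72 (KE EA RecExh DiffS)
open Pool.EXC33 (SupY SupE ExwB ZmI)
open Pool.FRX (FZQ)

variable {n : ℕ} {hn : 2 ≤ n} {S : PCl n} {P : ℝ → ℝ → ℝ} {rr : ℝ → ℝ}
  {P' : ℕ → List (Fin n) × Fin n → ℝ → ℝ → ℝ} {Λ : Finset (Fin n) → Fin n → ℝ → ℝ → ℝ}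
  {PB : ℕ → List (Fin n) × Fin n → ℝ → ℝ → ℝ}
  (H : PkT hn S P rr P' Λ PB) {hTop : TopS n} {hF : FZX (n - 1)} {h : ℝ}
  {ρ' : ℝ → ℝ} {hρ : Rle rr ρ'}

/-- **The facts of the boxes**, with some numbers. -/
def FctI (p : ((H.nk hTop hF).chg hρ H.up).Par) (I : ℝ → BS p.cell → Prop) : Prop :=
  ∃ (al : ℝ) (g₀ : ℝ → ℝ) (be co : ℝ), 0 < al ∧ (∀ e, 0 < e → 0 < g₀ e) ∧ 0 < be ∧ be ≤ 1 ∧
    0 < co ∧ SupY H p I al g₀ be co

/-- **The facts of the boxes** of the kinds. -/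
def HypY (ι : Type) : HypK (hTop := hTop) (hF := hF) (hρ := hρ) H ι := fun _ p I => FctI H p I

variable {H}

theorem FctI.sub {p : ((H.nk hTop hF).chg hρ H.up).Par} {I I' : ℝ → BS p.cell → Prop}
    (hf : FctI H p I) (hs : ∀ ε q, I' ε q → I ε q) : FctI H p I' := by
  obtain ⟨al, g₀, be, co, h1, h2, h3, h4, h5, h6⟩ := hf
  exact ⟨al, g₀, be, co, h1, h2, h3, h4, h5,
    fun K₁ δ hK₁ hδ N M hN => (h6 K₁ δ hK₁ hδ N M hN).sub hs⟩

/-- All rates below the dimension, with dimension zero. -/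
theorem fzx_le (hFk : ∀ k, 1 ≤ k → k < n → FZX k) (hn2 : 2 ≤ n) : ∀ k ≤ n - 1, FZX k := by
  intro k hk
  rcases Nat.eq_zero_or_pos k with rfl | hk0
  · exact Pool.OWN72.fzx_zero
  · exact hFk k hk0 (by omega)

/-- The base is full in the subclasses, from the facts. -/
theorem FctI.zm {p : ((H.nk hTop hF).chg hρ H.up).Par} {I : ℝ → BS p.cell → Prop}
    (hf : FctI H p I) (hn4 : n ≤ 4) (hFk : ∀ k, 1 ≤ k → k < n → FZX k) (hI : MonoI I)
    {c β h' Mr : ℝ} (hbs : ∀ ε q, I ε q → IsBS p.cell c β h' Mr ε q) : ZmI H p I := by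
  obtain ⟨al, g₀, be, co, h1, h2, h3, h4, h5, h6⟩ := hf
  exact Pool.EXC33.zmI_supY H hn4 hI hbs (fzx_le hFk hn) h1 h2 h3 h4 h5 h6

/-- **No slabs**, from the facts. -/
theorem FctI.nsl {p : ((H.nk hTop hF).chg hρ H.up).Par} {I : ℝ → BS p.cell → Prop}
    (hf : FctI H p I) (hn4 : n ≤ 4) (hFk : ∀ k, 1 ≤ k → k < n → FZX k) (hI : MonoI I)
    {c β h' Mr : ℝ} (hbs : ∀ ε q, I ε q → IsBS p.cell c β h' Mr ε q) (hc : 0 < c) (hβ : 0 < β)
    (hp : AdP H p) : NslI H p I := by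
  obtain ⟨al, g₀, be, co, h1, h2, h3, h4, h5, h6⟩ := hf
  exact Pool.NSL89.nslI_supY H hn4 hI hbs hc hβ hp (fzx_le hFk hn) h1 h2 h3 h4 h5 h6

/-- **No labels of the target above its level**, from the facts and the rows. -/
theorem FctI.nt {p : ((H.nk hTop hF).chg hρ H.up).Par} {I : ℝ → BS p.cell → Prop}
    (hf : FctI H p I) (hn4 : n ≤ 4) (hFk : ∀ k, 1 ≤ k → k < n → FZX k) (hI : MonoI I)
    {c β h' Mr : ℝ} (hbs : ∀ ε q, I ε q → IsBS p.cell c β h' Mr ε q) (hc : 0 < c) (hβ : 0 < β)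
    (hp : AdP H p) (hh : 0 < h) (hh1 : h ≤ 1)
    (hrow : ∀ ε' : ℝ, 0 < ε' → EvP I fun q =>
      NfB rr h (ε' * q.r) (P q.g q.g - q.r) (P q.g q.g + 3 * q.r)) :
    ∃ c₀ : ℝ, 0 < c₀ ∧ Pool.TGT.NtI H p I c₀ := by
  obtain ⟨al, g₀, be, co, h1, h2, h3, h4, h5, h6⟩ := hf
  exact Pool.TGT.ntI_supY H hn4 hI hbs hc hβ hp (fzx_le hFk hn) h1 h2 h3 h4 h5 h6 hh hh1 hrow

/-- **The closed lower bound of the rows**, from the facts and the rows. -/
theorem FctI.nfc {p : ((H.nk hTop hF).chg hρ H.up).Par} {I : ℝ → BS p.cell → Prop}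
    (hf : FctI H p I) (hn4 : n ≤ 4) (hFk : ∀ k, 1 ≤ k → k < n → FZX k) (hI : MonoI I)
    {c β h' Mr : ℝ} (hbs : ∀ ε q, I ε q → IsBS p.cell c β h' Mr ε q) (hc : 0 < c) (hβ : 0 < β)
    (hp : AdP H p) (hh : 0 < h) (hh1 : h ≤ 1)
    (hrow : ∀ ε' : ℝ, 0 < ε' → EvP I fun q =>
      NfB rr h (ε' * q.r) (P q.g q.g - q.r) (P q.g q.g + 3 * q.r)) {x : ℝ} (hx : 0 ≤ x)
    (hq : FZQ n x) : NfcI H p x I := by
  obtain ⟨al, g₀, be, co, h1, h2, h3, h4, h5, h6⟩ := hf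
  have en : n - 1 + 1 = n := by omega
  exact Pool.ORD65.nfcI_supY H hn4 hI hbs hc hβ hp (fzx_le hFk hn) h1 h2 h3 h4 h5 h6 hh hh1 hrow
    hx (by rw [en]; exact hq)

/-- **Exactness from the facts**, on the boxes of the kinds. -/
theorem HasK.yv {ι : Type} {K : NumI.KndP ((H.nk hTop hF).chg hρ H.up) ι}
    (hK : HasK H K (HypY H ι)) (hn4 : n ≤ 4) (hFk : ∀ k, 1 ≤ k → k < n → FZX k) :
    HasK H K (HypV _) := by
  intro p hp κ kd x' x c β h₁ M hc hβ hO
  have hz := (hK p hp kd x' x c β h₁ M hc hβ hO).zm hn4 hFk (isK_mono p.cell kd c β h₁ M x')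
    (isK_sub p.cell kd c β h₁ M x')
  exact ⟨Pool.EXC33.exnK_zoom H hp hc hβ hz, Pool.EXC33.exsK_zoom H hp hc hβ hz⟩

/-- **No slabs from the facts**, on the boxes of the kinds. -/
theorem HasK.ys {ι : Type} {K : NumI.KndP ((H.nk hTop hF).chg hρ H.up) ι}
    (hK : HasK H K (HypY H ι)) (hn4 : n ≤ 4) (hFk : ∀ k, 1 ≤ k → k < n → FZX k) :
    HasK H K fun _ p I => NslI H p I :=
  fun p hp _ kd x' x c β h₁ M hc hβ hO => (hK p hp kd x' x c β h₁ M hc hβ hO).nsl hn4 hFk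
    (isK_mono p.cell kd c β h₁ M x') (isK_sub p.cell kd c β h₁ M x') hc hβ hp

/-- **The facts on the boxes with one contact coordinate and different slopes** of the coordinates
of the base, at most four coordinates. -/
theorem hasY_KE (hn4 : n ≤ 4) : HasK H (KE H hTop hF hρ) (HypY H Unit) := by
  intro p hp κ kd x' x c β h' M hc hβ hK
  have hI : MonoI (IsK p.cell kd c β h' M x') := isK_mono p.cell kd c β h' M x'
  have hbs : ∀ ε q, IsK p.cell kd c β h' M x' ε q → IsBS p.cell c β h' M ε q :=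
    isK_sub p.cell kd c β h' M x'
  by_cases hne : ∃ (ε : ℝ) (q : BS p.cell), IsK p.cell kd c β h' M x' ε q
  · obtain ⟨ε₁, q₁, hq₁⟩ := hne
    have hA : EA hn S P P' c (show Od n from q₁.k.2) q₁.g := hK.A _ _ hq₁
    have hc1 : c ≤ 1 := by
      have h1 := hA.cg
      have h2 := hA.g1
      linarith
    obtain ⟨al, g₀, hal, hg₀, hE⟩ := Pool.OWN72.supE_KE H hn4 hp hI hc hbs hK
    have hX := Pool.OWN72.exwB_den H hI hc hbs (Pool.OWN72.den_KE H hI hbs hK)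
    exact ⟨al, g₀, _, _, hal, hg₀, by positivity, by linarith, by positivity,
      Pool.EXC33.supY_of_supE H hI hbs (by positivity) (by positivity) hE hX⟩
  · exact ⟨1, fun _ => 1, 1, 1, one_pos, fun _ _ => one_pos, one_pos, le_rfl, one_pos,
      fun K₁ δ _ _ N M' _ => ⟨1, one_pos, fun q hq => (hne ⟨1, q, hq⟩).elim⟩⟩

variable (H hTop hF hρ) in
/-- **The facts of the boxes** on finitely many kinds which cover the windows with `X`. -/
def ExY (h : ℝ) (X : Od n → ℝ → Prop) : Prop :=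
  ∃ (ι : Type) (_ : Finite ι) (K : NumI.KndP ((H.nk hTop hF).chg hρ H.up) ι),
    HasK H K (HypY H ι) ∧ CovK K h X

theorem ExY.mono {X Y : Od n → ℝ → Prop} (hX : ExY H hTop hF hρ h X)
    (hY : ∀ o : Od n, ∀ᵐ g : ℝ, ((H.nk hTop hF).chg hρ H.up).RwD o g → Y o g → X o g) :
    ExY H hTop hF hρ h Y := by
  obtain ⟨ι, f, K, h1, h2⟩ := hX
  exact ⟨ι, f, K, h1, h2.mono hY⟩

theorem ExY.or {X Y : Od n → ℝ → Prop} (hX : ExY H hTop hF hρ h X)
    (hY : ExY H hTop hF hρ h Y) : ExY H hTop hF hρ h fun o g => X o g ∨ Y o g := by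
  obtain ⟨ι, f, K, h1, h2⟩ := hX
  obtain ⟨ι', f', K', h1', h2'⟩ := hY
  refine ⟨ι ⊕ ι', inferInstance, K.sum K', fun p hp _ kd x' x c β h₁ M hc hβ hK => ?_,
    h2.sum h2'⟩
  have h3 := (h1.sum h1') p hp kd x' x c β h₁ M hc hβ hK
  cases x with
  | inl x => exact h3
  | inr x => exact h3

/-- Exactness from the facts. -/
theorem ExY.exB {X : Od n → ℝ → Prop} (hX : ExY H hTop hF hρ h X) (hn4 : n ≤ 4)
    (hFk : ∀ k, 1 ≤ k → k < n → FZX k) : ExB H hTop hF hρ h X := by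
  obtain ⟨ι, f, K, h1, h2⟩ := hX
  exact ⟨ι, f, K, h1.yv hn4 hFk, h2⟩

/-- **The facts at the windows with one contact coordinate and different slopes** of the
coordinates of the base, at most four coordinates. -/
theorem exY_KE (hTop : TopS n) (hF : FZX (n - 1)) (hρ : Rle rr ρ') (hn4 : n ≤ 4) (h : ℝ) :
    ExY H hTop hF hρ h fun o g =>
      OneC n (slo H hTop hF o g) (deriv (fun a => P a a) g) ∧ DiffS hn P P' o g :=
  ⟨Unit, inferInstance, KE H hTop hF hρ, hasY_KE hn4, Pool.OWN72.ke_cov H hTop hF hρ h⟩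

variable (H hTop hF hρ) in
/-- **Full entropy modulo the directions**, from the facts and the rows, on the boxes of a class.
The set `T` of the coordinates does not contain the first one. -/
def NftY (h : ℝ) : Prop :=
  ∀ p : ((H.nk hTop hF).chg hρ H.up).Par, AdP H p →
    ∀ {ι' : Type} (kd : p.cell.α → ι') (x' : ι') (T : Finset (Fin n)) (c β h' M : ℝ), 0 < c →
      0 < β → ¬ InR T 0 → FctI H p (IsK p.cell kd c β h' M x') →
      (∀ ε' : ℝ, 0 < ε' → EvP (IsK p.cell kd c β h' M x') fun q =>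
        NfB rr h (ε' * q.r) (P q.g q.g - q.r) (P q.g q.g + 3 * q.r)) →
      NftI H p (TlS T) (IsK p.cell kd c β h' M x')

/-- **The hypotheses of (T)** from the facts and full entropy modulo the directions. -/
theorem NftY.hasK (hN : NftY H hTop hF hρ h) (hn4 : n ≤ 4) (hFk : ∀ k, 1 ≤ k → k < n → FZX k)
    {κ ι : Type} {K₁ : NumI.KndP ((H.nk hTop hF).chg hρ H.up) κ} (f : κ → Finset (Fin n))
    (hf : ∀ c x o g, K₁.A c x o g → TieS hn P P' (f x) (show Od n from o) g)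
    (hr : ∀ x o g r d, K₁.Φ x o g r d → NfB rr h d (P g g - r) (P g g + 3 * r))
    {K : NumI.KndP ((H.nk hTop hF).chg hρ H.up) ι} (hE : HasK H K (HypY H ι)) :
    HasK H (K₁.and K) fun x => HypT H (f x.1) := by
  intro p hp κ kd x' x c β h₁ M hc hβ hK
  obtain ⟨e1, e2⟩ := (hE.yv hn4 hFk).of_snd (K := K₁) p hp kd x' x c β h₁ M hc hβ hK
  have e3 := hE.of_snd (K := K₁) p hp kd x' x c β h₁ M hc hβ hK
  have e4 := (hE.ys hn4 hFk).of_snd (K := K₁) p hp kd x' x c β h₁ M hc hβ hK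
  refine ⟨e1, e2, ?_, e4⟩
  by_cases h0 : InR (f x.1) 0
  · exact fun K K' s₁ sh _ _ => ⟨0, fun C₁ _ M' K'' κ' _ => ⟨0, fun N _ => ⟨1, one_pos,
      fun θ _ _ => ⟨1, one_pos, fun q hq => ((hf _ _ _ _ (hK.A _ q hq).1).1 h0).elim⟩⟩⟩⟩
  · exact hN p hp kd x' (f x.1) c β h₁ M hc hβ h0 e3
      fun ε' hε' => (hK.Φ ε' hε').mono fun _ h => hr _ _ _ _ _ h.1

end Pool.PKG
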