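import Pool.Agent.H89.NSL.Cht
import Pool.Agent.H89.TGT.Ntk

/-!
# The velocities of the charts are not in a slab, at the places of a kit

`nosl_place`: the statement at one place, one window and one accuracy. `nosl_kit`: the field `NoSl` of
the cells of a kit, from the exactness of the base behind closed values (`ZmQ`) at the places.
-/

set_option autoImplicit false

namespace Pool.NSL89

open Finset Real MvPolynomial Filter
open Pool.Agent.H49.Ent Pool.Agent.H32.Dense Pool.STK Pool.KA Pool.KSAT Pool.K2S Pool.PB Pool.S6C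
open Pool.GEN Pool.STAT Pool.STAT.CLO Pool.TGT Pool.ORD65
open Pool.EXC33 (ZmQ)
open Pool.BFL (Pb)

variable {m : ℕ}

/-- The systems, the lines and the slab of a chart. -/
structure SD (Γ Λ : Type) where
  Q : Γ × ℕ → ℕ → PN
  A : Λ × ℕ → ℕ → ℝ
  B : Λ × ℕ → ℕ → ℝ
  ka : Γ × ℕ → ℕ → ℝ
  al : Γ × ℕ → ℝ

instance (Γ Λ : Type) : Nonempty (SD Γ Λ) :=
  ⟨⟨fun _ _ => 0, fun _ _ => 0, fun _ _ => 0, fun _ _ => 0, fun _ => 0⟩⟩

/-- **A chart with velocities in a slab**, for the law `q`. -/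
structure InS (D : NDat2) (n' K' J w₀ z i j v t U k : ℕ) (q : D.Ω → ℝ) (d : SD D.Γ D.Λ) :
    Prop where
  one : ∀ y, d.ka y k = 1
  le1 : ∀ y l, 1 ≤ l → l ≤ n' → |d.ka y l| ≤ 1
  cht : D.Cht n' K' J w₀ z i j v t U q (fun _ => True) d.Q d.A d.B
  slb : ∀ ω, 0 < q ω → |∑ l ∈ Icc 1 n', d.ka (D.cT J (w₀ + v * z) i j ω) l *
    d.B (D.wn J (w₀ + v * z) ω) l - d.al (D.cT J (w₀ + v * z) i j ω)| ≤ 1 / 2 ^ (U * z)

theorem InS.sub {D : NDat2} {n' K' J w₀ z i j v t U k : ℕ} {q q' : D.Ω → ℝ} {d : SD D.Γ D.Λ}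
    (h : InS D n' K' J w₀ z i j v t U k q d) (hq : ∀ ω, 0 < q' ω → 0 < q ω) :
    InS D n' K' J w₀ z i j v t U k q' d :=
  ⟨h.one, h.le1, ⟨h.cht.deg, h.cht.var, fun ω h1 h2 => h.cht.nat ω (hq ω h1) h2,
    fun ω h1 h2 => h.cht.bdA ω (hq ω h1) h2, fun ω h1 h2 => h.cht.bdB ω (hq ω h1) h2,
    fun ω h1 h2 => h.cht.lin ω (hq ω h1) h2, fun ω h1 h2 => h.cht.slp ω (hq ω h1) h2⟩,
    fun ω h1 => h.slb ω (hq ω h1)⟩

theorem cond_pos_sub {J : ℕ} {F : Fam m J} {A B : F.Ω → Prop} (hB : Sub B A) {ω : F.Ω}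
    (h : 0 < Pool.Agent.H49.Ent.cond F.p B True ω) : 0 < Pool.Agent.H49.Ent.cond F.p A True ω := by
  have h1 := (cond_pos_iff F.isLaw.nonneg B True ω).1 h
  exact (cond_pos_iff F.isLaw.nonneg A True ω).2
    ⟨h1.1, eq_true (hB ω (of_eq_true h1.2))⟩

theorem sh_abs {x : ℝ} (hx : 0 ≤ x) (s : ℕ) : |((⌊x⌋₊ - s : ℕ) : ℝ) - x| ≤ 1 + s := by
  have h1 : (⌊x⌋₊ : ℝ) ≤ x := Nat.floor_le hx
  have h2 : x < ⌊x⌋₊ + 1 := Nat.lt_floor_add_one x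
  have h3 : ((⌊x⌋₊ - s : ℕ) : ℝ) ≤ ⌊x⌋₊ := by exact_mod_cast Nat.sub_le _ _
  have h4 : (⌊x⌋₊ : ℝ) ≤ ((⌊x⌋₊ - s : ℕ) : ℝ) + s := by
    have : ⌊x⌋₊ ≤ (⌊x⌋₊ - s) + s := by omega
    exact_mod_cast this
  rw [abs_le]
  constructor <;> linarith

variable {Θ : Type*} {n₀ : ℕ}

/-- The cell of the labels of the grid of a kit. -/
noncomputable abbrev ndk (Kt : KitP m Θ n₀) (p : Θ) (N M : ℕ) (θ : ℝ) (sh : ℕ → ℕ)
    (b : ℕ → ℕ → ℕ → ℝ) {J : ℕ} (F : Fam m J) (D : GDat F) : NDat2 :=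
  D.nd (Kt.cs p) (n₀ + 1) sh (up (Kt.y p).1 J) (up (msh (Kt.X p) N M) J) M
    (fun i j l => ⌊b i j l * (J : ℝ)⌋₊) (Kt.rc p N M θ J F D)

/-- **The velocities of a chart are not in a slab**: one place. -/
theorem nosl_place {Kt : KitP m Θ n₀} {S : PCl m}
    (hpos : ∀ (τ : ℝ) (J : ℕ) (F : Fam m J) (A : F.Ω → Prop), S.St τ J F A → 0 < Pe F.p A)
    {p : Θ} (hinj : Inj (Kt.cs p) (n₀ + 1)) {N M : ℕ} {θ ε T : ℝ} {K' s₁ : ℕ} {sh : ℕ → ℕ}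
    (hK' : 1 ≤ K')
    (hcell : CellL (n₀ + 1) (Kt.L p) ε T (Kt.y p) (Kt.X p) (Kt.la p) (Kt.ml p))
    (hN : 2 ≤ N) (hNT : 4 * (T + 2) ≤ N) (hε0 : 0 ≤ ε) (hε : ε * (64 * (N * (M + 4))) ≤ 1)
    (hθ : 0 < θ) (hθ1 : θ ≤ 1 / 16) {ka ξ : ℝ} (hka : ka ≤ 1) (hξ : 0 < ξ)
    {b : ℕ → ℕ → ℕ → ℝ} {e : ℕ → ℕ → ℝ} (hb : Kt.Near p N M θ b e)
    (hzm : ∀ i ≤ M, ∀ j ≤ M, ZmQ Kt S K' s₁ sh N M θ p ka ξ b e i j)
    {i j v t U n' k : ℕ} (h1 : i + 2 * U ≤ M) (h3 : j < v) (h4 : v ≤ M) (h5 : 1 ≤ t)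
    (h7 : n' ≤ n₀) {C₁ : ℝ} (hC : n₀ * (T + 2) + 2 ≤ C₁)
    (h8 : C₁ * ((t + (v - j) : ℕ) : ℝ) ≤ U) (k1 : 1 ≤ k) (k2 : k ≤ n') (K₂ : ℕ) :
    Bas S (fun J F A => ∀ D : GDat F, (Kt.grid K' s₁ sh p N M θ b e).Ok F D A →
      ∀ d : SD (ndk Kt p N M θ sh b F D).Γ (ndk Kt p N M θ sh b F D).Λ,
      ¬ InS (ndk Kt p N M θ sh b F D) n' K₂ J (up (Kt.y p).1 J)
        (up (msh (Kt.X p) N M) J) i j v t U k (Pool.Agent.H49.Ent.cond F.p A True) d) := by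
  classical
  have hlow := bas_none (S := S) hpos
    (Δ := fun J F => (D : GDat F) × SD (ndk Kt p N M θ sh b F D).Γ (ndk Kt p N M θ sh b F D).Λ)
    (hΔ := fun J F => ⟨⟨Classical.choice (Pool.EXC33.gdat_ne F), ⟨fun _ _ => 0, fun _ _ => 0,
      fun _ _ => 0, fun _ _ => 0, fun _ => 0⟩⟩⟩)
    (fun J F d A => (Kt.grid K' s₁ sh p N M θ b e).Ok F d.1 A ∧
      InS (ndk Kt p N M θ sh b F d.1) n' K₂ J (up (Kt.y p).1 J)
        (up (msh (Kt.X p) N M) J) i j v t U k (Pool.Agent.H49.Ent.cond F.p A True) d.2)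
    (fun J F d A B h hB => ⟨RW.Ok.sub h.1 hB, h.2.sub fun ω hω => cond_pos_sub hB hω⟩) ?_
  · exact Bas.mono 0 hlow fun J _ F A h D hD d hd => h ⟨D, d⟩ ⟨hD, hd⟩
  intro S' hne hsub d hd
  -- the numbers
  have hN1 : 1 ≤ N := by omega
  have hX := hcell.pos
  have hs := hcell.sideE (B := 1) (by omega) hN1 hNT hN le_rfl hε0 hε hθ hθ1 hb
  have hζ0 := hs.ζ0
  obtain ⟨ζ, hζ⟩ : ∃ ζ, ζ = msh (Kt.X p) N M := ⟨_, rfl⟩
  have hXζ : (N : ℝ) * ((M + 4) * ζ) = Kt.X p := by rw [hζ]; exact msh_mul hN1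
  rw [← hζ] at hζ0
  have hNr : (2 : ℝ) ≤ N := by exact_mod_cast hN
  have hM0 : (0 : ℝ) ≤ M := Nat.cast_nonneg M
  have hMX : 2 * ((M + 4) * ζ) ≤ Kt.X p := by
    have h9 : 0 ≤ (M + 4) * ζ := by positivity
    have := mul_le_mul_of_nonneg_right hNr h9
    linarith
  have hT0 : 0 ≤ T := (hcell.la0 0 (by omega)).trans (hcell.laT 0 (by omega))
  have hn00 : (0 : ℝ) ≤ n₀ := Nat.cast_nonneg _
  have hC0 : 2 ≤ C₁ := by
    have : 0 ≤ (n₀ : ℝ) * (T + 2) := by positivity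
    linarith
  have ht1 : (1 : ℝ) ≤ t := by exact_mod_cast h5
  have hvj0 : (0 : ℝ) ≤ ((v - j : ℕ) : ℝ) := Nat.cast_nonneg _
  have h8' : C₁ * ((t : ℝ) + ((v - j : ℕ) : ℝ)) ≤ U := by
    have := h8
    push_cast at this
    exact this
  have hU1 : (t : ℝ) + ((v - j : ℕ) : ℝ) ≤ U := by
    have : 1 * ((t : ℝ) + ((v - j : ℕ) : ℝ)) ≤ C₁ * ((t : ℝ) + ((v - j : ℕ) : ℝ)) :=
      mul_le_mul_of_nonneg_right (by linarith) (by linarith)
    linarith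
  have hU2 : t + (v - j) ≤ U := by exact_mod_cast hU1
  have htU : t ≤ U := by omega
  obtain ⟨i', hi'd⟩ : ∃ i', i' = i + (v - j) := ⟨_, rfl⟩
  have hi' : i' ≤ M := by omega
  have hiM : i ≤ M := by omega
  have hjM : j ≤ M := by omega
  have hjv : j ≤ v := h3.le
  have hwin := hs.win
  have htop := hcell.top
  have hdep := hcell.dep
  have hXw := hcell.win
  have hvr : (v : ℝ) ≤ M := by exact_mod_cast h4
  have hv0 : (0 : ℝ) ≤ v := Nat.cast_nonneg v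
  have hi'r : (i' : ℝ) ≤ M := by exact_mod_cast hi'
  have hi'0 : (0 : ℝ) ≤ i' := Nat.cast_nonneg i'
  have hvζ : (v : ℝ) * ζ ≤ M * ζ := mul_le_mul_of_nonneg_right hvr hζ0.le
  have hi'ζ : (i' : ℝ) * ζ ≤ M * ζ := mul_le_mul_of_nonneg_right hi'r hζ0.le
  have hvζ0 : 0 ≤ (v : ℝ) * ζ := by positivity
  have hi'ζ0 : 0 ≤ (i' : ℝ) * ζ := by positivity
  have hMζ0 : 0 ≤ (M : ℝ) * ζ := by positivity
  have hposb := fun i hi j hj l (hl : l < n₀ + 1) => hs.pos i hi j hj l hl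
  have he0 := hb.e0 i' hi' v h4
  have he1 := fun l (hl : l < n₀ + 1) => hb.e1 i' hi' v h4 l hl
  have he1' := fun l (hl : l < n₀ + 1) => hb.e1 i hiM j hjM l hl
  have he0' := hb.e0 i hiM j hjM
  -- the data of the subclass
  have hdOk : ∀ (τ : ℝ) (J : ℕ) (F : Fam m J) (A : F.Ω → Prop), S'.St τ J F A →
      (Kt.grid K' s₁ sh p N M θ b e).Ok F (d J F).1 A := fun τ J F A hA => (hd τ J F A hA).1
  have hOk : Bas S' (fun J F A => (d J F).1.Ok (Kt.cs p) (n₀ + 1) Kt.K K' s₁ sh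
      (up ((Kt.y p).1 + (Kt.y p).2) J) (up (Kt.y p).1 J) (up ζ J) M
      (fun i j => ⌊e i j * J⌋₊) (fun i j l => ⌊b i j l * J⌋₊) A) := by
    rw [hζ]
    exact ⟨1, one_pos, 0, fun J _ F A hA => (hdOk 1 J F A hA).1⟩
  have hpl := placeD_kit hdOk hi' h4
  obtain ⟨w₁, hw₁⟩ : ∃ w₁, w₁ = min ((Kt.y p).1 + v * ζ + ξ) 1 := ⟨_, rfl⟩
  have hw₁a : w₁ ≤ (Kt.y p).1 + v * ζ + ξ := by rw [hw₁]; exact min_le_left _ _
  have hw₁b : w₁ ≤ 1 := by rw [hw₁]; exact min_le_right _ _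
  have hww : (Kt.y p).1 + v * ζ < w₁ := by
    rw [hw₁]
    exact lt_min (by linarith) (by linarith)
  have hzx := zmx_of (w₁ := w₁) (hzm i' hi' v h4) hsub hdOk (by rw [← hζ]; exact hw₁a)
  have hbl : BlP S' (Kt.cs p) n₀ (fun J F =>
      ((d J F).1.cd (n₀ + 1) (Kt.rc p N M θ J F (d J F).1)).lab2 (up (Kt.y p).1 J)
        (up (msh (Kt.X p) N M) J) i' v) (1 - Kt.X p / 2) (b i' v) := by
    refine blp_cls hK' hinj (α := (Kt.y p).1 + (Kt.y p).2) (ϖ := (Kt.y p).1)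
      (ζ := ζ) (e := e) hi' h4 hOk
      ⟨1, one_pos, 0, fun J _ F A hA => by rw [hζ]; exact (hpl.2 1 J F A hA).1⟩ (by linarith)
      hζ0.le (by linarith) (hposb i' hi' v h4) he0 (fun l hl => by
        have := he1 l hl
        linarith)
  obtain ⟨Csh, hCsh⟩ : ∃ Csh : ℝ, Csh = 1 + ∑ l ∈ range (n₀ + 1), (sh (l + 1) : ℝ) := ⟨_, rfl⟩
  have hshl : ∀ l < n₀ + 1, 1 + (sh (l + 1) : ℝ) ≤ Csh := fun l hl => by
    rw [hCsh]
    have := Finset.single_le_sum (f := fun l => (sh (l + 1) : ℝ))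
      (fun _ _ => Nat.cast_nonneg _) (mem_range.2 hl)
    linarith
  have hCsh0 : 1 ≤ Csh := by
    rw [hCsh]
    have : 0 ≤ ∑ l ∈ range (n₀ + 1), (sh (l + 1) : ℝ) := Finset.sum_nonneg fun _ _ =>
      Nat.cast_nonneg _
    linarith
  have hupz : ∀ (r J : ℕ), |((r * up ζ J : ℕ) : ℝ) - r * ζ * J| ≤ r := by
    intro r J
    have a1 := up_ge ζ J
    have a2 := up_le hζ0.le J
    have hr : (0 : ℝ) ≤ r := Nat.cast_nonneg r
    have a3 := mul_le_mul_of_nonneg_left a1 hr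
    have a4 := mul_le_mul_of_nonneg_left a2 hr
    push_cast
    rw [abs_le]
    constructor <;> linarith
  have hch : Bas S' (fun J F A =>
      Slb F (Kt.cs p) n' (k - 1) (fun l => ⌊b i j l * (J : ℝ)⌋₊ - sh (l + 1))
        (t * up (msh (Kt.X p) N M) J) ((U - t) * up (msh (Kt.X p) N M) J)
        (up (Kt.y p).1 J + v * up (msh (Kt.X p) N M) J)
        (sld (d J F).1 (Kt.cs p) (n₀ + 1) sh (up (Kt.y p).1 J) (up (msh (Kt.X p) N M) J) M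
          (fun i j l => ⌊b i j l * (J : ℝ)⌋₊) (Kt.rc p N M θ J F (d J F).1) i j v (d J F).2.Q
          (d J F).2.A (d J F).2.B (d J F).2.ka (d J F).2.al) (fun ω => A ω ∧ 0 < F.p ω) ∧
      ∀ ω ω', A ω → A ω' →
        ((d J F).1.cd (n₀ + 1) (Kt.rc p N M θ J F (d J F).1)).lab2 (up (Kt.y p).1 J)
          (up (msh (Kt.X p) N M) J) i' v ω =
        ((d J F).1.cd (n₀ + 1) (Kt.rc p N M θ J F (d J F).1)).lab2 (up (Kt.y p).1 J)
          (up (msh (Kt.X p) N M) J) i' v ω' →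
        (sld (d J F).1 (Kt.cs p) (n₀ + 1) sh (up (Kt.y p).1 J) (up (msh (Kt.X p) N M) J) M
          (fun i j l => ⌊b i j l * (J : ℝ)⌋₊) (Kt.rc p N M θ J F (d J F).1) i j v (d J F).2.Q
          (d J F).2.A (d J F).2.B (d J F).2.ka (d J F).2.al).key ω =
        (sld (d J F).1 (Kt.cs p) (n₀ + 1) sh (up (Kt.y p).1 J) (up (msh (Kt.X p) N M) J) M
          (fun i j l => ⌊b i j l * (J : ℝ)⌋₊) (Kt.rc p N M θ J F (d J F).1) i j v (d J F).2.Q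
          (d J F).2.A (d J F).2.B (d J F).2.ka (d J F).2.al).key ω') := by
    obtain ⟨J₁, hJ₁⟩ := Filter.eventually_atTop.1
      (evl (show (Kt.y p).1 + v * ζ < 1 by linarith) (v + 1 : ℝ))
    refine ⟨1, one_pos, J₁, fun J hJ F A hA => ?_⟩
    obtain ⟨-, hin⟩ := hd 1 J F A hA
    have hvJ : up (Kt.y p).1 J + v * up (msh (Kt.X p) N M) J ≤ J := by
      rw [← hζ]
      have a1 := (abs_le.1 (upd (Kt.y p).1 ζ hwin hζ0.le v J)).2
      have a2 := hJ₁ J hJ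
      have a3 : ((up (Kt.y p).1 J + v * up ζ J : ℕ) : ℝ) ≤ J := by linarith
      exact_mod_cast a3
    have hsl := slb_of_cht (d J F).1 (Kt.cs p) (n₀ + 1) sh (up (Kt.y p).1 J)
      (up (msh (Kt.X p) N M) J) M (fun i j l => ⌊b i j l * (J : ℝ)⌋₊)
      (Kt.rc p N M θ J F (d J F).1) (al := (d J F).2.al)
      hin.cht hjv hvJ htU k1 hin.one hin.le1 hin.slb
    refine ⟨?_, fun ω ω' _ _ h => ?_⟩
    · have e1 : (fun l => ((d J F).1.nd (Kt.cs p) (n₀ + 1) sh (up (Kt.y p).1 J)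
          (up (msh (Kt.X p) N M) J) M (fun i j l => ⌊b i j l * (J : ℝ)⌋₊)
          (Kt.rc p N M θ J F (d J F).1)).g i j (l + 1)) =
          fun l => ⌊b i j l * (J : ℝ)⌋₊ - sh (l + 1) := by
        funext l
        exact CDat2.nd2_g _ _ _ _ _ _ _ (by omega)
      rw [e1] at hsl
      refine hsl.sub fun ω hω => ?_
      exact (cond_pos_iff F.isLaw.nonneg A True ω).2 ⟨hω.2, eq_true hω.1⟩
    · rw [hi'd] at h
      exact lab_key (d J F).1 (Kt.cs p) (n₀ + 1) sh (up (Kt.y p).1 J)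
        (up (msh (Kt.X p) N M) J) M
        (fun i j l => ⌊b i j l * (J : ℝ)⌋₊) (Kt.rc p N M θ J F (d J F).1) hjv hvJ h
  refine noslb_cls hne (fun τ J F A hA => hpos τ J F A (hsub τ J F A hA)) hzx ?_
    (by rw [← hζ]; exact hww) hw₁b hbl (by linarith) ?_ h7 (p := k - 1) (by omega)
    (g := fun J l => ⌊b i j l * (J : ℝ)⌋₊ - sh (l + 1))
    (tJ := fun J => t * up (msh (Kt.X p) N M) J) (aJ := fun J => (U - t) * up (msh (Kt.X p) N M) J)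
    (WJ := fun J => up (Kt.y p).1 J + v * up (msh (Kt.X p) N M) J) hch
    (C₁ := Csh + U + v + 1) (α := (U - t : ℕ) * ζ) (tt := t * ζ) (γ := b i j) ?_ ?_ ?_ ?_ ?_ ?_
  · rw [← hζ]
    linarith
  · intro l hl
    have := he1 l (by omega)
    linarith
  · intro J l hl
    have a1 := hposb i hiM j hjM l (by omega)
    have a2 := sh_abs (x := b i j l * J) (by positivity) (sh (l + 1))
    have a3 := hshl l (by omega)
    have a4 : (0 : ℝ) ≤ U := Nat.cast_nonneg U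
    exact a2.trans (by linarith)
  · intro J
    rw [← hζ]
    have := hupz t J
    have a4 : (t : ℝ) ≤ U := by exact_mod_cast htU
    exact this.trans (by linarith)
  · intro J
    rw [← hζ]
    have := hupz (U - t) J
    have a4 : ((U - t : ℕ) : ℝ) ≤ U := by exact_mod_cast Nat.sub_le _ _
    exact this.trans (by linarith)
  · intro J
    rw [← hζ]
    have a1 := (abs_le.1 (upd (Kt.y p).1 ζ hwin hζ0.le v J)).2
    have a4 : (0 : ℝ) ≤ U := Nat.cast_nonneg U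
    linarith
  · intro l hl
    have a1 := he1' l (by omega)
    have a2 : ((U - t : ℕ) : ℝ) * ζ ≤ M * ζ := by
      refine mul_le_mul_of_nonneg_right ?_ hζ0.le
      have : U - t ≤ M := by omega
      exact_mod_cast this
    linarith
  · -- the main inequality
    rw [← hζ]
    obtain ⟨Lp, hLp⟩ : ∃ Lp : ℕ → ℝ, Lp = fun l => Kt.L p l ((Kt.y p).1 + (Kt.y p).2 + i' * ζ)
      ((Kt.y p).1 + v * ζ) := ⟨_, rfl⟩
    have hεX : ε * Kt.X p ≤ ζ / 64 := by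
      have a1 : ε * (64 * (N * (M + 4))) * ζ ≤ 1 * ζ := mul_le_mul_of_nonneg_right hε hζ0.le
      have a2 : ε * (64 * (N * (M + 4))) * ζ = 64 * (ε * (N * ((M + 4) * ζ))) := by ring
      rw [a2, hXζ] at a1
      linarith
    have hir : (i : ℝ) ≤ M := by exact_mod_cast hiM
    have hjr : (j : ℝ) ≤ M := by exact_mod_cast hjM
    have hi'c : (i' : ℝ) = i + ((v - j : ℕ) : ℝ) := by rw [hi'd]; push_cast; ring
    have hvc : (v : ℝ) = j + ((v - j : ℕ) : ℝ) := by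
      have : v = j + (v - j) := by omega
      exact_mod_cast this
    obtain ⟨x, hx⟩ : ∃ x : ℝ, x = ((v - j : ℕ) : ℝ) := ⟨_, rfl⟩
    rw [← hx] at hi'c hvc h8' hvj0
    have hlev : ∀ l < n₀ + 1, Lp l ≤ Kt.L p l ((Kt.y p).1 + (Kt.y p).2 + i * ζ)
        ((Kt.y p).1 + j * ζ) + (T * x + 1 / 32) * ζ := by
      intro l hl
      have g1 := (abs_le.1 (hcell.grid (N := N) (M := M) hN1 hl (s := i') (t := v) hi'0
        (by linarith) hv0 (by linarith))).2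
      have g2 := (abs_le.1 (hcell.grid (N := N) (M := M) hN1 hl (s := i) (t := j)
        (Nat.cast_nonneg i) (by linarith) (Nat.cast_nonneg j) (by linarith))).1
      rw [← hζ] at g1 g2
      have e1 : (Kt.ml p l * i' + (Kt.la p l - Kt.ml p l) * v) * ζ -
          (Kt.ml p l * i + (Kt.la p l - Kt.ml p l) * j) * ζ = Kt.la p l * x * ζ := by
        rw [hi'c, hvc]
        ring
      have e2 : Kt.la p l * x * ζ ≤ T * x * ζ :=
        mul_le_mul_of_nonneg_right (mul_le_mul_of_nonneg_right (hcell.laT l hl) hvj0) hζ0.le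
      rw [hLp]
      simp only
      have e3 : (T * x + 1 / 32) * ζ = T * x * ζ + 2 * (ζ / 64) := by ring
      rw [e3]
      linarith
    have hs1 : ∑ l ∈ range n', (1 - b i j l) ≤ ∑ l ∈ range n', (1 - Lp l) +
        n' * ((T * x + 1 / 32 + θ) * ζ) := by
      have : ∑ l ∈ range n', (1 - b i j l) ≤
          ∑ l ∈ range n', ((1 - Lp l) + (T * x + 1 / 32 + θ) * ζ) := by
        refine Finset.sum_le_sum fun l hl => ?_
        have hl' := mem_range.1 hl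
        have a1 := hb.lo i hiM j hjM l (by omega)
        have a2 := hlev l (by omega)
        rw [← hζ] at a1
        have e3 : (T * x + 1 / 32 + θ) * ζ = (T * x + 1 / 32) * ζ + θ * ζ := by ring
        rw [e3]
        linarith
      refine this.trans (le_of_eq ?_)
      rw [Finset.sum_add_distrib, Finset.sum_const, Finset.card_range, nsmul_eq_mul]
    have hs2 : ∑ l ∈ Finset.Ico n' n₀, (1 - b i' v l) ≤
        ∑ l ∈ Finset.Ico n' n₀, (1 - Lp l) + n₀ * (θ * ζ) - n' * (θ * ζ) := by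
      have : ∑ l ∈ Finset.Ico n' n₀, (1 - b i' v l) ≤
          ∑ l ∈ Finset.Ico n' n₀, ((1 - Lp l) + θ * ζ) := by
        refine Finset.sum_le_sum fun l hl => ?_
        have hl' := Finset.mem_Ico.1 hl
        have a1 := hb.lo i' hi' v h4 l (by omega)
        rw [← hζ] at a1
        rw [hLp]
        simp only
        linarith
      refine this.trans (le_of_eq ?_)
      rw [Finset.sum_add_distrib, Finset.sum_const, Nat.card_Ico, nsmul_eq_mul,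
        Nat.cast_sub h7]
      ring
    have hs3 : ∑ l ∈ range n₀, (1 - Lp l) = ∑ l ∈ range n', (1 - Lp l) +
        ∑ l ∈ Finset.Ico n' n₀, (1 - Lp l) := by
      rw [Finset.sum_range_add_sum_Ico _ h7]
    have hn'r : (n' : ℝ) ≤ n₀ := by exact_mod_cast h7
    have hn'0 : (0 : ℝ) ≤ n' := Nat.cast_nonneg _
    have hUt : ((U - t : ℕ) : ℝ) = U - t := by rw [Nat.cast_sub htU]
    rw [hUt]
    have hLs : ∑ l ∈ range n₀, (1 - Kt.L p l ((Kt.y p).1 + (Kt.y p).2 + i' * ζ)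
      ((Kt.y p).1 + v * ζ)) = ∑ l ∈ range n₀, (1 - Lp l) := by rw [hLp]
    rw [hLs, hs3]
    have hmain : n' * (T * x + 1 / 32 + θ) + (n₀ * θ - n' * θ) + (n' - 1) * t - (U - t) + ka < 0 := by
      have a1 : n₀ * (T + 2) * (t + x) + 2 * (t + x) ≤ U := by
        have : (n₀ * (T + 2) + 2) * (t + x) ≤ C₁ * (t + x) :=
          mul_le_mul_of_nonneg_right hC (by linarith)
        linarith
      have a2 : (n' : ℝ) * (T * x) ≤ n₀ * (T * x) := mul_le_mul_of_nonneg_right hn'r (by positivity)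
      have a3 : (n' : ℝ) * t ≤ n₀ * t := mul_le_mul_of_nonneg_right hn'r (by linarith)
      have a4 : (n₀ : ℝ) * θ ≤ n₀ * (1 / 16) := mul_le_mul_of_nonneg_left hθ1 hn00
      have a5 : 0 ≤ (n₀ : ℝ) * T * t := by positivity
      have a6 : 0 ≤ (n₀ : ℝ) * x := by positivity
      have a7 : (n₀ : ℝ) * 1 ≤ n₀ * t := mul_le_mul_of_nonneg_left ht1 hn00
      nlinarith
    have hfin := mul_neg_of_neg_of_pos hmain hζ0
    have e5 : (n' * (T * x + 1 / 32 + θ) + (n₀ * θ - n' * θ) + (n' - 1) * t - (U - t) + ka) * ζ =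
        n' * ((T * x + 1 / 32 + θ) * ζ) + (n₀ * (θ * ζ) - n' * (θ * ζ)) + (n' - 1) * (t * ζ) -
          (U - t) * ζ + ka * ζ := by ring
    rw [e5] at hfin
    linarith

/-- **The velocities of the charts are not in a slab**: the field of the cells of a kit. -/
theorem nosl_kit {I : ℝ → Θ → Prop} (hI : MonoI I) {S : PCl m}
    (hpos : ∀ (τ : ℝ) (J : ℕ) (F : Fam m J) (A : F.Ω → Prop), S.St τ J F A → 0 < Pe F.p A)
    (Kt : KitP m Θ n₀) (hinj : ∀ p, Inj (Kt.cs p) (n₀ + 1)) {T' : ℝ} (hT' : 0 ≤ T')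
    (fcel : ∀ ε' : ℝ, 0 < ε' → EvP I fun p =>
      CellL (n₀ + 1) (Kt.L p) ε' T' (Kt.y p) (Kt.X p) (Kt.la p) (Kt.ml p))
    {K' s₁ : ℕ} {sh : ℕ → ℕ} (hK' : 1 ≤ K') {ka : ℝ} (hka : ka ≤ 1)
    (hz : ∀ M : ℕ, EvQ I fun N θ p => ∃ ξ : ℝ, 0 < ξ ∧
      ∀ (b : ℕ → ℕ → ℕ → ℝ) (e : ℕ → ℕ → ℝ), Kt.Near p N M θ b e →
        ∀ i ≤ M, ∀ j ≤ M, ZmQ Kt S K' s₁ sh N M θ p ka ξ b e i j) :
    ∃ C₄ : ℝ, ∀ C₁ : ℝ, C₄ ≤ C₁ → ∀ (M K₂ : ℕ) (ϖ : ℝ), 0 < ϖ →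
      EvQ I fun N θ p => Kt.FldN S K' s₁ sh M N θ p fun G J F D q =>
        (Kt.nd p N M θ G F D).NoSl G.n J (up G.ϖ J) (up G.ζ J) G.M K₂ C₁ ϖ q := by
  refine ⟨n₀ * (T' + 2) + 2, fun C₁ hC M K₂ ϖ hϖ => ?_⟩
  obtain ⟨N₁, hN₁⟩ := exists_nat_ge (4 * (T' + 2))
  have key := ((hz M).and hI (KitP.cel_evQ fcel M)).and hI
    (EvQ.self I (max N₁ 2) (θ₀ := 1 / 16) (by norm_num)
      (ε := fun N _ => 1) (fun N _ _ => one_pos))
  refine key.mono ?_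
  rintro N θ p ⟨⟨⟨ξ, hξ, hzm⟩, hL⟩, hN, hθ, hθ1, -⟩ b e hnear
  obtain ⟨ε, hε⟩ : ∃ ε : ℝ, ε = 1 / (64 * (N * (M + 4)) + 1) := ⟨_, rfl⟩
  rw [← hε] at hL
  have hNN : N₁ ≤ N := (le_max_left _ _).trans hN
  have hN2 : 2 ≤ N := (le_max_right _ _).trans hN
  have hNT : 4 * (T' + 2) ≤ N := hN₁.trans (by exact_mod_cast hNN)
  have hε0 : 0 < ε := by rw [hε]; positivity
  have hεN : ε * (64 * (N * (M + 4))) ≤ 1 := by
    rw [hε, one_div, inv_mul_le_iff₀ (by positivity)]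
    linarith
  have hC2 : 1 ≤ C₁ := by
    have : 0 ≤ (n₀ : ℝ) * (T' + 2) := by positivity
    linarith
  -- all the numbers
  have hall : Bas S (fun J F A => ∀ a : Fin (M + 1) × Fin (M + 1) × Fin (M + 1) × Fin (M + 1) ×
      Fin (M + 1) × Fin (n₀ + 1) × Fin (n₀ + 1), ∀ D : GDat F,
      (Kt.grid K' s₁ sh p N M θ b e).Ok F D A →
      ((a.1 : ℕ) + 2 * (a.2.2.2.2.1 : ℕ) ≤ M → (a.2.1 : ℕ) < a.2.2.1 → 1 ≤ (a.2.2.2.1 : ℕ) →
      C₁ * (((a.2.2.2.1 : ℕ) + ((a.2.2.1 : ℕ) - (a.2.1 : ℕ)) : ℕ) : ℝ) ≤ (a.2.2.2.2.1 : ℕ) →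
      1 ≤ (a.2.2.2.2.2.2 : ℕ) → (a.2.2.2.2.2.2 : ℕ) ≤ a.2.2.2.2.2.1 →
      ∀ d : SD (ndk Kt p N M θ sh b F D).Γ (ndk Kt p N M θ sh b F D).Λ,
      ¬ InS (ndk Kt p N M θ sh b F D) a.2.2.2.2.2.1 K₂ J (up (Kt.y p).1 J)
        (up (msh (Kt.X p) N M) J) a.1 a.2.1 a.2.2.1 a.2.2.2.1 a.2.2.2.2.1 a.2.2.2.2.2.2
        (Pool.Agent.H49.Ent.cond F.p A True) d)) := by
    refine Bas.fin ?_
    rintro ⟨i, j, v, t, U, n', k⟩
    by_cases hh : (i : ℕ) + 2 * (U : ℕ) ≤ M ∧ (j : ℕ) < v ∧ 1 ≤ (t : ℕ) ∧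
        C₁ * (((t : ℕ) + ((v : ℕ) - (j : ℕ)) : ℕ) : ℝ) ≤ (U : ℕ) ∧ 1 ≤ (k : ℕ) ∧ (k : ℕ) ≤ n'
    · obtain ⟨c1, c2, c3, c4, c5, c6⟩ := hh
      have h1 := nosl_place (S := S) hpos (hinj p) (θ := θ) (s₁ := s₁) (sh := sh) hK' hL hN2 hNT
        hε0.le hεN hθ hθ1 hka hξ hnear (hzm b e hnear) (i := i) (j := j) (v := v) (t := t) (U := U)
        (n' := n') (k := k) c1 c2 (by omega) c3 (by omega) hC c4 c5 c6 K₂
      exact Bas.mono 0 h1 fun J _ F A h2 D hD _ _ _ _ _ _ d => h2 D hD d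
    · refine ⟨1, one_pos, 0, fun J _ F A _ D _ c1 c2 c3 c4 c5 c6 => ?_⟩
      exact absurd ⟨c1, c2, c3, c4, c5, c6⟩ hh
  have hfld : FldW S (Kt.grid K' s₁ sh p N M θ b e) (fun J F D q =>
      ∀ i j v t U n' k : ℕ, i + 2 * U ≤ M → j < v → v ≤ M → 1 ≤ t → n' ≤ n₀ →
      C₁ * ((t + (v - j) : ℕ) : ℝ) ≤ U → 1 ≤ k → k ≤ n' →
      ∀ d : SD (ndk Kt p N M θ sh b F D).Γ (ndk Kt p N M θ sh b F D).Λ,
      ¬ InS (ndk Kt p N M θ sh b F D) n' K₂ J (up (Kt.y p).1 J)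
        (up (msh (Kt.X p) N M) J) i j v t U k q d) := by
    refine Bas.mono 0 hall fun J _ F A h D hD i j v t U n' k c1 c2 c3 c4 c5 c6 c7 c8 d => ?_
    have hUt : ((t + (v - j) : ℕ) : ℝ) ≤ U := by
      have h0 : (0 : ℝ) ≤ ((t + (v - j) : ℕ) : ℝ) := Nat.cast_nonneg _
      have := mul_le_mul_of_nonneg_right hC2 h0
      linarith
    have hUt' : t + (v - j) ≤ U := by exact_mod_cast hUt
    exact h (⟨i, by omega⟩, ⟨j, by omega⟩, ⟨v, by omega⟩, ⟨t, by omega⟩, ⟨U, by omega⟩,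
      ⟨n', by omega⟩, ⟨k, by omega⟩) D hD c1 c2 c4 c6 c7 c8 d
  refine Bas.mono 0 (FldW.ev hpos hfld hϖ) ?_
  intro J _ F B₀ h D hD i j v t U n' c1 c2 c3 c4 c5 c6 c7 c8 k k1 k2 Q A B ka' al e1 e2 E hE hch
    hsl
  have h7 : n' ≤ n₀ := by
    have : n' < n₀ + 1 := c7
    omega
  refine h D hD E hE i j v t U n' k c1 c3 c4 c5 h7 c8 k1 k2 ⟨Q, A, B, ka', al⟩ ?_
  obtain ⟨q, hq⟩ : ∃ q, q = Pool.Agent.H49.Ent.cond F.p B₀ True := ⟨_, rfl⟩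
  have hq0 : ∀ ω, 0 ≤ q ω := fun ω => by
    rw [hq]
    exact cond_nonneg F.isLaw.nonneg B₀ True ω
  rw [← hq] at hch hsl ⊢
  have hpq : ∀ ω, 0 < Pool.Agent.H49.Ent.cond q E True ω → 0 < q ω ∧ E ω := by
    intro ω hω
    have h1 := (cond_pos_iff hq0 E True ω).1 hω
    exact ⟨h1.1, of_eq_true h1.2⟩
  exact ⟨e1, e2, ⟨hch.deg, hch.var, fun ω h1 _ => hch.nat ω (hpq ω h1).1 (hpq ω h1).2,
    fun ω h1 _ => hch.bdA ω (hpq ω h1).1 (hpq ω h1).2,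
    fun ω h1 _ => hch.bdB ω (hpq ω h1).1 (hpq ω h1).2,
    fun ω h1 _ => hch.lin ω (hpq ω h1).1 (hpq ω h1).2,
    fun ω h1 _ => hch.slp ω (hpq ω h1).1 (hpq ω h1).2⟩,
    fun ω h1 => hsl ω (hpq ω h1).1 (hpq ω h1).2⟩

end Pool.NSL89
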