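import Pool.Agent.H89.NSL.Cls
import Pool.Agent.H89.TT.NoS
import Pool.Agent.H78.TT.SlpF
import Pool.Agent.H65.ORD.Zkt

/-!
# The velocities of a chart in a slab: the data of the class

`slb_of_cht`: a chart of the cell of a family with velocities in a slab gives the data `Slb`.
`lab_key`: the key is a function of the label of the place `(i + (v - j), v)`. `bas_none`: a datum
which is impossible in all nonempty subclasses is impossible on all events.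
-/

set_option autoImplicit false

namespace Pool.NSL89

open Finset Real MvPolynomial Filter
open Pool.Agent.H49.Ent Pool.Agent.H32.Dense Pool.STK Pool.KA Pool.KSAT Pool.K2S Pool.PB Pool.S6C
open Pool.GEN Pool.STAT Pool.STAT.CLO Pool.TGT
open Pool.P4 (rt t0)

variable {m J : ℕ}

/-- **A datum which is impossible** in all nonempty subclasses. -/
theorem bas_none {S : PCl m}
    (hpos : ∀ (τ : ℝ) (J : ℕ) (F : Fam m J) (A : F.Ω → Prop), S.St τ J F A → 0 < Pe F.p A)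
    {Δ : ∀ J : ℕ, Fam m J → Type} [hΔ : ∀ (J : ℕ) (F : Fam m J), Nonempty (Δ J F)]
    (V : ∀ (J : ℕ) (F : Fam m J), Δ J F → (F.Ω → Prop) → Prop)
    (hV : ∀ (J : ℕ) (F : Fam m J) (d : Δ J F) (A B : F.Ω → Prop), V J F d A → Sub B A →
      V J F d B)
    (h : ∀ S' : PCl m, S'.Ne → (∀ (τ : ℝ) (J : ℕ) (F : Fam m J) (A : F.Ω → Prop),
        S'.St τ J F A → S.St τ J F A) → ∀ d : ∀ (J : ℕ) (F : Fam m J), Δ J F,
      (∀ (τ : ℝ) (J : ℕ) (F : Fam m J) (A : F.Ω → Prop), S'.St τ J F A → V J F (d J F) A) →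
      False) :
    Bas S (fun J F A => ∀ d : Δ J F, ¬ V J F d A) := by
  have h1 := Pool.OWN72.bas_low (S := S) hpos V hV (β := fun _ _ _ => Unit)
    (γ := fun _ _ _ => Unit) (fun _ _ _ _ => ()) (fun _ _ _ _ => ())
    (fun J _ _ => 2 * (J : ℝ)) (C := 2) (δ := 1) (fun J F d => le_rfl) one_pos
    (fun S' hne hsub d hd => (h S' hne hsub d hd).elim)
  have hP : Bas S (fun _ F A => 0 < Pe F.p A) := ⟨1, one_pos, 0, fun J _ F A hA => hpos 1 J F A hA⟩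
  refine (h1.and hP).mono 1 ?_
  rintro J hJ F A ⟨h2, h3⟩ d hd
  have h4 := h2 d hd
  have hq := isLaw_cond F.isLaw h3
  have h5 : CH (Pool.Agent.H49.Ent.cond F.p A True) (fun _ : F.Ω => ()) (fun _ : F.Ω => ()) = 0 :=
    CH_eq_zero hq.nonneg fun _ _ _ _ _ => rfl
  rw [h5] at h4
  have h6 : (1 : ℝ) ≤ J := by exact_mod_cast hJ
  linarith

section

variable {F : Fam m J} (D : GDat F) (c : ℕ → Fin m) (n : ℕ) (sh : ℕ → ℕ) (w₀ z M : ℕ)
  (g : ℕ → ℕ → ℕ → ℕ) {R : ℕ → ℕ → Type} (ρ : (i j : ℕ) → LnT F → R i j)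

/-- **The data of a chart with a slab.** -/
noncomputable def sld (i j v : ℕ) (Q : (D.nd c n sh w₀ z M g ρ).Γ × ℕ → ℕ → PN)
    (A B : (D.nd c n sh w₀ z M g ρ).Λ × ℕ → ℕ → ℝ)
    (ka : (D.nd c n sh w₀ z M g ρ).Γ × ℕ → ℕ → ℝ) (al : (D.nd c n sh w₀ z M g ρ).Γ × ℕ → ℝ) :
    SlD F where
  κ := (D.nd c n sh w₀ z M g ρ).Γ × ℕ
  key := (D.nd c n sh w₀ z M g ρ).cT J (w₀ + v * z) i j
  H ω l := (D.nd c n sh w₀ z M g ρ).yc J w₀ z i j v Q ω (l + 1)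
  aa ω l := A ((D.nd c n sh w₀ z M g ρ).wn J (w₀ + v * z) ω) (l + 1)
  bb ω l := B ((D.nd c n sh w₀ z M g ρ).wn J (w₀ + v * z) ω) (l + 1)
  tm := rt (D.nd c n sh w₀ z M g ρ) J (w₀ + v * z)
  nn y l := ka y (l + 1)
  al := al

/-- The label of the place determines the key. -/
theorem lab_key {i j v : ℕ} (hjv : j ≤ v) (hv : w₀ + v * z ≤ J) {ω ω' : F.Ω}
    (h : (D.cd n ρ).lab2 w₀ z (i + (v - j)) v ω = (D.cd n ρ).lab2 w₀ z (i + (v - j)) v ω') :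
    (D.nd c n sh w₀ z M g ρ).cT J (w₀ + v * z) i j ω =
      (D.nd c n sh w₀ z M g ρ).cT J (w₀ + v * z) i j ω' := by
  have h1 := Prod.ext_iff.1 h
  have h2 : F.T1 (w₀ + v * z) ω = F.T1 (w₀ + v * z) ω' := h1.2
  refine Prod.ext ?_ h2
  exact CDat2.lab2_lab2 (D.cd n ρ) hjv (by omega) hv h

/-- **A chart with velocities in a slab.** -/
theorem slb_of_cht {n' K' i j v t U k : ℕ} {q : F.Ω → ℝ}
    {Q : (D.nd c n sh w₀ z M g ρ).Γ × ℕ → ℕ → PN}
    {A B : (D.nd c n sh w₀ z M g ρ).Λ × ℕ → ℕ → ℝ}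
    {ka : (D.nd c n sh w₀ z M g ρ).Γ × ℕ → ℕ → ℝ} {al : (D.nd c n sh w₀ z M g ρ).Γ × ℕ → ℝ}
    (h : (D.nd c n sh w₀ z M g ρ).Cht n' K' J w₀ z i j v t U q (fun _ => True) Q A B)
    (hjv : j ≤ v) (hv : w₀ + v * z ≤ J) (htU : t ≤ U) (hk : 1 ≤ k)
    (hka : ∀ y, ka y k = 1) (hka1 : ∀ y l, 1 ≤ l → l ≤ n' → |ka y l| ≤ 1)
    (hsl : ∀ ω, 0 < q ω →
      |∑ l ∈ Icc 1 n', ka ((D.nd c n sh w₀ z M g ρ).cT J (w₀ + v * z) i j ω) l *
        B ((D.nd c n sh w₀ z M g ρ).wn J (w₀ + v * z) ω) l -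
          al ((D.nd c n sh w₀ z M g ρ).cT J (w₀ + v * z) i j ω)| ≤ 1 / 2 ^ (U * z)) :
    Slb F c n' (k - 1) (fun l => (D.nd c n sh w₀ z M g ρ).g i j (l + 1)) (t * z) ((U - t) * z)
      (w₀ + v * z) (sld D c n sh w₀ z M g ρ i j v Q A B ka al) (fun ω => 0 < q ω) := by
  have herr : (2 : ℝ) ^ (t * z) / 2 ^ (U * z) = 1 / 2 ^ ((U - t) * z) := by
    obtain ⟨r, hr⟩ : ∃ r, U = t + r := ⟨U - t, by omega⟩
    have e8 : U - t = r := by omega
    rw [e8, hr, add_mul, pow_add]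
    field_simp
  have hX : ∀ (ω : F.Ω) (l : ℕ), (D.nd c n sh w₀ z M g ρ).X ω (l + 1) = F.x ω (c l) :=
    fun ω l => cx_succ F c ω l
  have hX0 : ∀ ω : F.Ω, (D.nd c n sh w₀ z M g ρ).X ω 0 = F.t ω := fun ω => by
    show cx F (fun i => c (i - 1)) ω 0 = F.t ω
    exact if_pos rfl
  have htT : ∀ ω ω' : F.Ω, F.T ω = F.T ω' → F.t ω = F.t ω' := fun ω ω' e => by
    unfold Fam.t
    rw [e]
  refine ⟨?_, ?_, ?_, ?_, ?_, ?_, ?_, ?_, ?_⟩
  · intro ω ω' hω hω' hkey hT l hl hx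
    have hkey' : (D.nd c n sh w₀ z M g ρ).cT J (w₀ + v * z) i j ω =
      (D.nd c n sh w₀ z M g ρ).cT J (w₀ + v * z) i j ω' := hkey
    have h1 := h.slp ω hω trivial (l + 1) (by omega) (by omega)
      ((D.nd c n sh w₀ z M g ρ).X ω') (by rw [hX0, hX0, htT ω ω' hT]) (fun k hk1 hk2 => by
        obtain ⟨k', rfl⟩ : ∃ k', k = k' + 1 := ⟨k - 1, by omega⟩
        rw [hX, hX, abs_sub_comm]
        exact hx k' (by omega))
    show |2 ^ (D.nd c n sh w₀ z M g ρ).g i j (l + 1) * (F.x ω (c l) - F.x ω' (c l)) -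
      ((D.nd c n sh w₀ z M g ρ).yc J w₀ z i j v Q ω (l + 1) -
        (D.nd c n sh w₀ z M g ρ).yc J w₀ z i j v Q ω' (l + 1))| ≤ _
    unfold NDat2.yc
    rw [← hkey', hX, hX]
    have e1 : 2 ^ (D.nd c n sh w₀ z M g ρ).g i j (l + 1) * (F.x ω (c l) - F.x ω' (c l)) -
        (2 ^ (D.nd c n sh w₀ z M g ρ).g i j (l + 1) * (F.x ω (c l) -
          eval ((D.nd c n sh w₀ z M g ρ).X ω)
            (Q ((D.nd c n sh w₀ z M g ρ).cT J (w₀ + v * z) i j ω) (l + 1))) -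
        2 ^ (D.nd c n sh w₀ z M g ρ).g i j (l + 1) * (F.x ω' (c l) -
          eval ((D.nd c n sh w₀ z M g ρ).X ω')
            (Q ((D.nd c n sh w₀ z M g ρ).cT J (w₀ + v * z) i j ω) (l + 1)))) =
        -(2 ^ (D.nd c n sh w₀ z M g ρ).g i j (l + 1) * (eval ((D.nd c n sh w₀ z M g ρ).X ω')
            (Q ((D.nd c n sh w₀ z M g ρ).cT J (w₀ + v * z) i j ω) (l + 1)) -
          eval ((D.nd c n sh w₀ z M g ρ).X ω)
            (Q ((D.nd c n sh w₀ z M g ρ).cT J (w₀ + v * z) i j ω) (l + 1)))) := by ring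
    rw [e1, abs_neg, abs_mul,
      abs_of_pos (by positivity : (0 : ℝ) < 2 ^ (D.nd c n sh w₀ z M g ρ).g i j (l + 1))]
    refine (mul_le_mul_of_nonneg_left h1 (by positivity)).trans (le_of_eq ?_)
    rw [← herr, pow_add]
    field_simp
  · intro ω hω l hl
    exact h.nat ω hω trivial (l + 1) (by omega) (by omega)
  · intro ω hω l hl
    exact (h.lin ω hω trivial (l + 1) (by omega) (by omega)).trans (le_of_eq herr)
  · intro ω
    show |rt (D.nd c n sh w₀ z M g ρ) J (w₀ + v * z) ω| ≤ 1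
    obtain ⟨w, hw⟩ : ∃ w, w = w₀ + v * z := ⟨_, rfl⟩
    rw [← hw] at hv ⊢
    unfold rt t0
    rw [hX0]
    show |2 ^ w * (F.t ω - ((F.T ω / 2 ^ (J - w) * 2 ^ (J - w) : ℕ) : ℝ) / 2 ^ J)| ≤ 1
    unfold Fam.t
    obtain ⟨r, hr⟩ : ∃ r, J = w + r := ⟨J - w, by omega⟩
    have e8 : J - w = r := by omega
    rw [e8]
    have e9 : (F.T ω : ℝ) = ((F.T ω / 2 ^ r * 2 ^ r : ℕ) : ℝ) + ((F.T ω % 2 ^ r : ℕ) : ℝ) := by
      have := Nat.div_add_mod' (F.T ω) (2 ^ r)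
      exact_mod_cast this.symm
    have e10 : ((F.T ω % 2 ^ r : ℕ) : ℝ) ≤ 2 ^ r := by
      have := (Nat.mod_lt (F.T ω) (show 0 < 2 ^ r by positivity)).le
      exact_mod_cast this
    have e11 : (2 : ℝ) ^ w * ((F.T ω : ℝ) / 2 ^ J -
        ((F.T ω / 2 ^ r * 2 ^ r : ℕ) : ℝ) / 2 ^ J) = ((F.T ω % 2 ^ r : ℕ) : ℝ) / 2 ^ r := by
      rw [e9, add_div, add_sub_cancel_left]
      have e12 : (2 : ℝ) ^ J = 2 ^ w * 2 ^ r := by rw [hr, pow_add]
      rw [e12]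
      field_simp
    rw [e11, abs_of_nonneg (by positivity)]
    exact (div_le_one (by positivity)).2 e10
  · intro ω ω' hT
    show rt (D.nd c n sh w₀ z M g ρ) J (w₀ + v * z) ω =
      rt (D.nd c n sh w₀ z M g ρ) J (w₀ + v * z) ω'
    unfold rt t0
    rw [hX0, hX0, htT ω ω' hT]
    show 2 ^ (w₀ + v * z) * (F.t ω' - ((F.T ω / 2 ^ (J - (w₀ + v * z)) *
      2 ^ (J - (w₀ + v * z)) : ℕ) : ℝ) / 2 ^ J) = 2 ^ (w₀ + v * z) * (F.t ω' -
        ((F.T ω' / 2 ^ (J - (w₀ + v * z)) * 2 ^ (J - (w₀ + v * z)) : ℕ) : ℝ) / 2 ^ J)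
    rw [hT]
  · intro y l hl
    exact hka1 y (l + 1) (by omega) (by omega)
  · intro y
    show 1 ≤ |ka y (k - 1 + 1)|
    rw [Nat.sub_add_cancel hk, hka y, abs_one]
  · intro ω hω
    show |∑ l ∈ range n', ka ((D.nd c n sh w₀ z M g ρ).cT J (w₀ + v * z) i j ω) (l + 1) *
      B ((D.nd c n sh w₀ z M g ρ).wn J (w₀ + v * z) ω) (l + 1) -
        al ((D.nd c n sh w₀ z M g ρ).cT J (w₀ + v * z) i j ω)| ≤ _
    have h1 := hsl ω hω
    have e1 : ∑ l ∈ Icc 1 n', ka ((D.nd c n sh w₀ z M g ρ).cT J (w₀ + v * z) i j ω) l *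
        B ((D.nd c n sh w₀ z M g ρ).wn J (w₀ + v * z) ω) l =
        ∑ l ∈ range n', ka ((D.nd c n sh w₀ z M g ρ).cT J (w₀ + v * z) i j ω) (l + 1) *
          B ((D.nd c n sh w₀ z M g ρ).wn J (w₀ + v * z) ω) (l + 1) := by
      have e2 : Finset.Icc 1 n' = Finset.Ico 1 (n' + 1) := rfl
      rw [e2, Finset.sum_Ico_eq_sum_range]
      refine Finset.sum_congr rfl fun l _ => ?_
      rw [add_comm 1 l]
    rw [e1] at h1
    refine h1.trans (one_div_le_one_div_of_le (by positivity) (pow_le_pow_right₀ one_le_two ?_))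
    exact Nat.mul_le_mul_right _ (Nat.sub_le _ _)
  · intro ω ω' e
    have hjz : ∀ j' ≤ v, w₀ + j' * z ≤ w₀ + v * z := fun j' hj' =>
      Nat.add_le_add_left (Nat.mul_le_mul_right _ hj') _
    have hsl' : ∀ j' ≤ v, slam F (w₀ + j' * z) ω = slam F (w₀ + j' * z) ω' := fun j' hj' =>
      Pool.EXC33.slam_of (hjz j' hj') hv e
    have hT1 : F.T1 (w₀ + v * z) ω = F.T1 (w₀ + v * z) ω' := congrArg (fun s => s.2.2) e
    constructor
    · refine Prod.ext ?_ hT1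
      show (D.cd n ρ).lab2 w₀ z i j ω = (D.cd n ρ).lab2 w₀ z i j ω'
      refine Prod.ext (funext fun i' => funext fun j' => ?_)
        (congrArg (fun s => s.2.2) (hsl' j hjv))
      show (if j' ≤ j ∧ i' + j ≤ i + j' then some _ else none) =
          (if j' ≤ j ∧ i' + j ≤ i + j' then some _ else none)
      split_ifs with h3
      · rw [hsl' j' (by omega)]
      · rfl
    · intro l
      have h0 : slam F w₀ ω = slam F w₀ ω' := by
        have := hsl' 0 (Nat.zero_le _)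
        rwa [Nat.zero_mul, Nat.add_zero] at this
      have h1 : (D.nd c n sh w₀ z M g ρ).wn J (w₀ + v * z) ω =
          (D.nd c n sh w₀ z M g ρ).wn J (w₀ + v * z) ω' := Prod.ext h0 hT1
      show A ((D.nd c n sh w₀ z M g ρ).wn J (w₀ + v * z) ω) (l + 1) =
        A ((D.nd c n sh w₀ z M g ρ).wn J (w₀ + v * z) ω') (l + 1)
      rw [h1]

end

end Pool.NSL89
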