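import Pool.Agent.H78.TT.NobV
import Pool.Agent.H78.TT.Mic

/-!
# Ties at the top speed, at most four coordinates

`lTaYX4`: no boxes at the windows with the facts where no coordinate is faster than the target, there
is a tie, and all coordinates of the base are thin or static, at most one not thin, for all packages,
outside any set `X` of void windows.
-/

set_option autoImplicit false

namespace Pool.ASM

open Pool.STAT

/-- **The ties at the top speed** in dimension at most four: all coordinates of the base are thin or
static, at most one is not thin. -/
theorem lTaYX4 {X : WinC} {n : ℕ} (hn4 : n ≤ 4) : LTaYX X n := lTaYX hn4 micT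

/-- **The ties at the top speed in dimension three.** -/
theorem lTq1YX3 {X : WinC} : LTq1YX X 3 := lTq1YX_three micT

/-- **The ties at the top speed**, from the windows which are not covered by (T). -/
theorem lTq1YX_of4 {X : WinC} {n : ℕ} (hn4 : n ≤ 4) (hb : LTbYX X n) : LTq1YX X n :=
  lTq1YX_T hn4 micT hb

end Pool.ASM
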