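import Pool.Agent.H89.NSL.Knd
import Pool.Agent.H33.NFT.Box

/-!
# The hypotheses of (T) on the boxes of the kinds, from the facts

`FctI.nft`, `nftY`: full entropy modulo the directions from the facts and the rows. `hasT`: the
hypotheses `HypT` (exactness, full entropy modulo the directions, no slabs) on the boxes of the kinds,
from the facts, at most four coordinates.
-/

set_option autoImplicit false

namespace Pool.PKG

open MeasureTheory Set Filter Topology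
open Pool.Agent.H49.Ent Pool.Agent.H32.Dense Pool.STK Pool.KA Pool.KSAT Pool.K2S Pool.PB
open Pool.GEN Pool.S6C Pool.STAT Pool.CHT Pool.GRW Pool.ONE Pool.STA
open Pool.LBT (LSys ThrOf)
open Pool.LEV (Law Lv)
open Pool.ALL (RateOf)
open Pool.TOP (TopS)
open Pool.RTS (iso Diag)
open Pool.STR (NumI CellD RowD NfB AffB Rle Nw ThinAt SteepAt StaAt)
open Pool.CHB (chsysB)
open Pool.STAT.CLO Pool.MIC6
open Pool.P4 (NFc1)

variable {n : ℕ} {hn : 2 ≤ n} {S : PCl n} {P : ℝ → ℝ → ℝ} {rr : ℝ → ℝ}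
  {P' : ℕ → List (Fin n) × Fin n → ℝ → ℝ → ℝ} {Λ : Finset (Fin n) → Fin n → ℝ → ℝ → ℝ}
  {PB : ℕ → List (Fin n) × Fin n → ℝ → ℝ → ℝ}
  {H : PkT hn S P rr P' Λ PB} {hTop : TopS n} {hF : FZX (n - 1)} {h : ℝ}
  {ρ' : ℝ → ℝ} {hρ : Rle rr ρ'}

/-- **Full entropy modulo the directions**, from the facts and the rows. -/
theorem FctI.nft {p : ((H.nk hTop hF).chg hρ H.up).Par} {I : ℝ → BS p.cell → Prop}
    (hf : FctI H p I) (hn4 : n ≤ 4) (hFk : ∀ k, 1 ≤ k → k < n → FZX k) (hI : MonoI I)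
    {c β h' Mr : ℝ} (hbs : ∀ ε q, I ε q → IsBS p.cell c β h' Mr ε q) (hc : 0 < c) (hβ : 0 < β)
    (hp : AdP H p) (hh : 0 < h) (hh1 : h ≤ 1)
    (hrow : ∀ ε' : ℝ, 0 < ε' → EvP I fun q =>
      NfB rr h (ε' * q.r) (P q.g q.g - q.r) (P q.g q.g + 3 * q.r)) {Tl : ℕ → Prop}
    (hTl : ¬ Tl 1) : NftI H p Tl I := by
  obtain ⟨al, g₀, be, co, h1, h2, h3, h4, h5, h6⟩ := hf
  exact Pool.NFT33.nftE_supY H hn4 hI hbs hc hβ hp (fzx_le hFk hn) h1 h2 h3 h4 h5 h6 hh hh1 hrow hTl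

/-- **Full entropy modulo the directions**, on the boxes of all classes. -/
theorem nftY (hn4 : n ≤ 4) (hFk : ∀ k, 1 ≤ k → k < n → FZX k) (hh : 0 < h) (hh1 : h ≤ 1) :
    NftY H hTop hF hρ h := by
  intro p hp κ kd x' T c β h' M hc hβ hT hf hrow
  exact hf.nft hn4 hFk (isK_mono p.cell kd c β h' M x') (isK_sub p.cell kd c β h' M x') hc hβ hp
    hh hh1 hrow fun h0 => hT h0.2

/-- **The hypotheses of (T)** on the boxes of the kinds, from the facts, at most four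
coordinates. -/
theorem hasT (hn4 : n ≤ 4) (hFk : ∀ k, 1 ≤ k → k < n → FZX k) (hh : 0 < h) (hh1 : h ≤ 1)
    {κ ι : Type} {K₁ : NumI.KndP ((H.nk hTop hF).chg hρ H.up) κ} (f : κ → Finset (Fin n))
    (hf : ∀ c x o g, K₁.A c x o g → TieS hn P P' (f x) (show Od n from o) g)
    (hr : ∀ x o g r d, K₁.Φ x o g r d → NfB rr h d (P g g - r) (P g g + 3 * r))
    {K : NumI.KndP ((H.nk hTop hF).chg hρ H.up) ι} (hE : HasK H K (HypY H ι)) :
    HasK H (K₁.and K) fun x => HypT H (f x.1) :=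
  (nftY hn4 hFk hh hh1).hasK hn4 hFk f hf hr hE

end Pool.PKG
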