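import Pool.Agent.H89.NSL.Slb

/-!
# The velocities of the base are not in a slab

`noslb_cls`: in a class in which the base is exact behind closed values (`ZmX`), with the balls of
the place (`BlP`), the first `n₁` coordinates of the base have no heights near lines with velocities
in a slab.
-/

set_option autoImplicit false

namespace Pool.NSL89

open Finset Real MvPolynomial Filter
open Pool.Agent.H49.Ent Pool.Agent.H32.Dense Pool.STK Pool.KA Pool.KSAT Pool.K2S Pool.PB Pool.S6C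
open Pool.GEN Pool.REX Pool.REX83 Pool.TGT Pool.GRW Pool.ORD65
open Pool.OWN17 (root_fix)

variable {m J : ℕ}

theorem Pe_pos_and {F : Fam m J} (A : F.Ω → Prop) :
    Pe F.p A = Pe F.p fun ω => A ω ∧ 0 < F.p ω := by
  classical
  have h0 := F.isLaw.nonneg
  refine le_antisymm ?_ (Pe_mono F.isLaw fun ω hω => hω.1)
  unfold Pe
  refine Finset.sum_le_sum fun ω _ => ?_
  by_cases h1 : A ω
  · by_cases h2 : 0 < F.p ω
    · simp [h1, h2]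
    · have h3 : F.p ω = 0 := le_antisymm (not_lt.1 h2) (h0 ω)
      simp [h1, h3]
  · simp [h1]

/-- **The velocities of the base are not in a slab.** -/
theorem noslb_cls {S : PCl m} (hne : S.Ne)
    (hpos : ∀ (τ : ℝ) (J : ℕ) (F : Fam m J) (A : F.Ω → Prop), S.St τ J F A → 0 < Pe F.p A)
    {c : ℕ → Fin m} {n₀ : ℕ} {Λ : ∀ J : ℕ, Fam m J → Type}
    {lab : ∀ (J : ℕ) (F : Fam m J), F.Ω → Λ J F} {X₀ w w₁ qm : ℝ}
    (hzm : ZmX S c n₀ lab X₀ w w₁ qm) (hqm : 0 < qm) (hww : w < w₁) (hw1 : w₁ ≤ 1)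
    {ρR : ℝ} {b : ℕ → ℝ} (hbl : BlP S c n₀ lab ρR b) (hρ1 : ρR ≤ 1)
    (hb1 : ∀ l < n₀, b l ≤ 1) {n₁ p : ℕ} (hn : n₁ ≤ n₀) (hp : p < n₁)
    {g : ℕ → ℕ → ℕ} {tJ aJ WJ : ℕ → ℕ} {d : ∀ (J : ℕ) (F : Fam m J), SlD F}
    (hch : Bas S (fun J F A =>
      Slb F c n₁ p (g J) (tJ J) (aJ J) (WJ J) (d J F) (fun ω => A ω ∧ 0 < F.p ω) ∧
      ∀ ω ω', A ω → A ω' → lab J F ω = lab J F ω' → (d J F).key ω = (d J F).key ω'))
    {C₁ α tt : ℝ} {γ : ℕ → ℝ} (hg : ∀ J : ℕ, ∀ l < n₁, |(g J l : ℝ) - γ l * J| ≤ C₁)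
    (ht : ∀ J : ℕ, |(tJ J : ℝ) - tt * J| ≤ C₁) (ha : ∀ J : ℕ, |(aJ J : ℝ) - α * J| ≤ C₁)
    (hW : ∀ J : ℕ, (WJ J : ℝ) ≤ w * J + C₁) (hn2 : ∀ l < n₁, γ l + α < 1)
    (hn3 : (∑ l ∈ range n₁, (1 - γ l)) + (∑ l ∈ Finset.Ico n₁ n₀, (1 - b l)) +
      (n₁ - 1) * tt - α < X₀) : False := by
  classical
  obtain ⟨wp, hwpa, hwpb⟩ := exists_between hww
  have hC₁ : 0 ≤ C₁ := (abs_nonneg _).trans (ha 0)
  -- the numbers
  have hev : ∀ᶠ J : ℕ in atTop, (WJ J ≤ ⌊wp * J⌋₊ ∧ ⌊wp * J⌋₊ ≤ J) ∧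
      ∀ l < n₁, g J l + aJ J ≤ J := by
    have hl : ∀ᶠ J : ℕ in atTop, ∀ l ∈ range n₁, g J l + aJ J ≤ J := by
      rw [Filter.eventually_all_finset]
      intro l hl
      have hl' := mem_range.1 hl
      filter_upwards [evl (hn2 l hl') (2 * C₁)] with J h1
      have h2 := abs_le.1 (hg J l hl')
      have h3 := abs_le.1 (ha J)
      have h4 : ((g J l + aJ J : ℕ) : ℝ) ≤ (J : ℝ) := by
        push_cast
        linarith [h2.2, h3.2]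
      exact_mod_cast h4
    filter_upwards [evl hwpa C₁, hl] with J h1 h3
    have hJ0 : (0 : ℝ) ≤ J := Nat.cast_nonneg J
    refine ⟨⟨?_, ?_⟩, fun l hl => h3 l (mem_range.2 hl)⟩
    · exact Nat.le_floor ((hW J).trans (by linarith))
    · refine Nat.floor_le_of_le ?_
      have := mul_le_mul_of_nonneg_right (hwpb.le.trans hw1) hJ0
      linarith
  obtain ⟨J₂, hJ₂⟩ := Filter.eventually_atTop.1 hev
  -- the closed value
  obtain ⟨val, hval⟩ : ∃ val : ∀ (J : ℕ) (F : Fam m J), F.Ω → Option ((d J F).κ × ℤ),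
    val = fun J F ω => some ((d J F).key ω, (d J F).slv n₁ (aJ J) ω) := ⟨_, rfl⟩
  have key : Bas S (fun J F A => ∃ (e : (PtT F → Λ J F → (Fin m → ℤ) →
      Option ((d J F).κ × ℤ)) × (LnT F → Option ((d J F).κ × ℤ))) (B : F.Ω → Prop),
      Sub B A ∧ Pe F.p A ≤ (2 * ((4 * n₁ + 3 : ℕ) : ℝ) + 1) ^ 1 * Pe F.p B ∧
      ∀ ω, B ω → e.1 (ptr F J ω) (lab J F ω) (F.D ⌊qm / 2 * J⌋₊ ω) = val J F ω ∧
        e.2 (slam F ⌊wp * J⌋₊ ω) = val J F ω) := by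
    refine hch.mono J₂ ?_
    rintro J hJ F A ⟨h, hk⟩
    obtain ⟨⟨n1, n2⟩, n4⟩ := hJ₂ J hJ
    obtain ⟨B, hBA, hBm, hdet⟩ := h.part n4
    rw [← Pe_pos_and] at hBm
    obtain ⟨yp, hyp⟩ := fac (f := fun ω => (ptr F J ω, lab J F ω))
      (Y := fun ω => ((d J F).key ω, (d J F).slv n₁ (aJ J) ω)) (B := B) (by
      intro ω ω' hω hω' e
      have e1 := Prod.ext_iff.mp e
      have e2 := hk ω ω' (hBA ω hω).1 (hBA ω' hω').1 e1.2
      exact Prod.ext e2 (hdet ω ω' hω hω' e1.1 e2))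
    obtain ⟨yl, hyl⟩ := fac (f := slam F ⌊wp * (J : ℝ)⌋₊)
      (Y := fun ω => ((d J F).key ω, (d J F).slv n₁ (aJ J) ω)) (B := B) (by
      intro ω ω' hω hω' hsl
      exact h.ofl (Pool.EXC33.slam_of n1 n2 hsl))
    refine ⟨(fun u l _ => yp (u, l), yl), B, fun ω hω => (hBA ω hω).1, hBm,
      fun ω hω => ⟨?_, ?_⟩⟩
    · show yp (ptr F J ω, lab J F ω) = val J F ω
      rw [hyp ω hω, hval]
    · show yl (slam F ⌊wp * (J : ℝ)⌋₊ ω) = val J F ω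
      rw [hyl ω hω, hval]
  obtain ⟨S₃, dN, hne₃, hsub₃, hN₃⟩ := root_fix
    (Δ := fun J F => (PtT F → Λ J F → (Fin m → ℤ) → Option ((d J F).κ × ℤ)) ×
      (LnT F → Option ((d J F).κ × ℤ)))
    hne (fun J F e A => ∀ ω, A ω →
      e.1 (ptr F J ω) (lab J F ω) (F.D ⌊qm / 2 * J⌋₊ ω) = val J F ω ∧
        e.2 (slam F ⌊wp * J⌋₊ ω) = val J F ω)
    (fun J F d A B h hB ω hω => h ω (hB ω hω)) key
  obtain ⟨S₄, hne₄, hsub₄, hX⟩ := hzm S₃ hne₃ hsub₃ wp hwpa hwpb (qm / 2) (by linarith)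
    (by linarith) (fun J F => Option ((d J F).κ × ℤ)) (fun J F => (dN J F).1)
    (fun J F => (dN J F).2) (fun τ J F A hA ω hω => by
      obtain ⟨a1, a2⟩ := hN₃ τ J F A hA ω hω
      rw [a1, a2])
  have hsub : ∀ (τ : ℝ) (J : ℕ) (F : Fam m J) (A : F.Ω → Prop), S₄.St τ J F A → S.St τ J F A :=
    fun τ J F A h => hsub₃ τ J F A (hsub₄ τ J F A h)
  -- the contradiction
  obtain ⟨num, hnum⟩ : ∃ num, num = (∑ l ∈ range n₁, (1 - γ l)) +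
    (∑ l ∈ Finset.Ico n₁ n₀, (1 - b l)) + (n₁ - 1) * tt - α := ⟨_, rfl⟩
  rw [← hnum] at hn3
  obtain ⟨ρ, hρ⟩ : ∃ ρ : ℝ, ρ = (X₀ - num) / 2 := ⟨_, rfl⟩
  have hρ0 : 0 < ρ := by rw [hρ]; linarith
  have hl2 : 0 < Real.log 2 := Real.log_pos one_lt_two
  obtain ⟨Cb, hCb, hball⟩ := hbl
  obtain ⟨CC, hCC⟩ : ∃ CC : ℝ, CC = 3 * n₁ + 3 + Cb := ⟨_, rfl⟩
  have hn0' : (0 : ℝ) ≤ n₁ := Nat.cast_nonneg _
  obtain ⟨cc, hcc⟩ : ∃ cc : ℝ, cc = (2 * n₁ * C₁ + C₁ + n₀) * Real.log 2 +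
    (n₁ + 1 + n₀) * Real.log (2 * CC + 9) + 1 := ⟨_, rfl⟩
  obtain ⟨J₃, hJ₃⟩ := Filter.eventually_atTop.1 (evl (show (0 : ℝ) < ρ * Real.log 2 from
    mul_pos hρ0 hl2) cc)
  obtain ⟨τ, hτ, J₄, hB⟩ := ((hch.sub hsub).and (hball.sub hsub)).and (hX ρ hρ0)
  obtain ⟨J, hJ, F, A, hA⟩ := hne₄ τ hτ (max (max J₂ J₃) J₄)
  obtain ⟨⟨⟨h, hk⟩, hbal⟩, h6⟩ := hB J ((le_max_right _ _).trans hJ) F A hA
  obtain ⟨⟨n1, n2⟩, n4⟩ := hJ₂ J ((le_max_left _ _).trans ((le_max_left _ _).trans hJ))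
  have h7 := hJ₃ J ((le_max_right _ _).trans ((le_max_left _ _).trans hJ))
  have hJ0 : (0 : ℝ) ≤ J := Nat.cast_nonneg J
  have hpA := hpos τ J F A (hsub τ J F A hA)
  have hq := isLaw_cond F.isLaw hpA
  have hvA := hN₃ τ J F A (hsub₄ τ J F A hA)
  have hbJ : ∀ l < n₀, ⌊b l * (J : ℝ)⌋₊ ≤ J := fun l hl => by
    refine Nat.floor_le_of_le ?_
    have := mul_le_mul_of_nonneg_right (hb1 l hl) hJ0
    linarith
  have hRJ : ⌊ρR * (J : ℝ)⌋₊ ≤ J := by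
    refine Nat.floor_le_of_le ?_
    have := mul_le_mul_of_nonneg_right hρ1 hJ0
    linarith
  have hmemA : ∀ ω, 0 < Pool.Agent.H49.Ent.cond F.p A True ω → A ω ∧ 0 < F.p ω := by
    intro ω hω
    have h1 := Pool.EXC33.cond_mem hω
    refine ⟨h1, ?_⟩
    by_contra hcon
    have h2 : F.p ω = 0 := le_antisymm (not_lt.1 hcon) (F.isLaw.nonneg ω)
    have h3 : Pool.Agent.H49.Ent.cond F.p A True ω = 0 := by
      unfold Pool.Agent.H49.Ent.cond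
      simp [h2]
    rw [h3] at hω
    exact lt_irrefl _ hω
  have key2 := h.cnt hn hp n4 (G := fun l => ⌊b l * (J : ℝ)⌋₊) (fun l _ h2 => hbJ l h2) hq hmemA
    (fun ω => (lab J F ω, (F.D ⌊qm / 2 * J⌋₊ ω, ((dN J F).2 (slam F ⌊wp * J⌋₊ ω), F.T ω))))
    (fun ω ω' hω hω' e => by
      simp only [Prod.mk.injEq] at e
      obtain ⟨e1, e2, e3, e4⟩ := e
      rw [(hvA ω hω.1).2, (hvA ω' hω'.1).2, hval] at e3
      have e5 := Prod.ext_iff.1 (Option.some.inj e3)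
      exact ⟨e5.1, e4, e5.2⟩) (C := CC) (by rw [hCC]; linarith)
    (fun ω ω' hω hω' e l hl1 hl2 hx => by
      simp only [Prod.mk.injEq] at e
      obtain ⟨e1, e2, e3, e4⟩ := e
      have h8 := hbal ω ω' hω.1 hω'.1 e1 e4 l hl2 fun k hk => (hx k hk).trans
        (one_div_le_one_div_of_le (by positivity) (pow_le_pow_right₀ one_le_two hRJ))
      refine h8.trans (div_le_div_of_nonneg_right ?_ (by positivity))
      rw [hCC]
      linarith)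
  have h8 := h6.trans key2
  have hn1' : (1 : ℝ) ≤ n₁ := by
    have : 1 ≤ n₁ := by omega
    exact_mod_cast this
  have s1 : ∑ l ∈ range n₁, ((J : ℝ) - g J l) ≤ (∑ l ∈ range n₁, (1 - γ l)) * J + n₁ * C₁ := by
    have : ∑ l ∈ range n₁, ((J : ℝ) - g J l) ≤ ∑ l ∈ range n₁, ((1 - γ l) * J + C₁) := by
      refine Finset.sum_le_sum fun l hl => ?_
      have := (abs_le.1 (hg J l (mem_range.1 hl))).1
      linarith
    refine this.trans (le_of_eq ?_)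
    rw [Finset.sum_add_distrib, ← Finset.sum_mul, Finset.sum_const, Finset.card_range,
      nsmul_eq_mul]
  have s1' : ∑ l ∈ Finset.Ico n₁ n₀, ((J : ℝ) - (⌊b l * (J : ℝ)⌋₊ : ℕ)) ≤
      (∑ l ∈ Finset.Ico n₁ n₀, (1 - b l)) * J + n₀ := by
    have : ∑ l ∈ Finset.Ico n₁ n₀, ((J : ℝ) - (⌊b l * (J : ℝ)⌋₊ : ℕ)) ≤
        ∑ l ∈ Finset.Ico n₁ n₀, ((1 - b l) * J + 1) := by
      refine Finset.sum_le_sum fun l hl => ?_
      have := Nat.lt_floor_add_one (b l * (J : ℝ))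
      linarith
    refine this.trans ?_
    rw [Finset.sum_add_distrib, ← Finset.sum_mul, Finset.sum_const, Nat.card_Ico, nsmul_eq_mul,
      mul_one]
    have : ((n₀ - n₁ : ℕ) : ℝ) ≤ n₀ := by exact_mod_cast Nat.sub_le _ _
    linarith
  have s2 : ((n₁ : ℝ) - 1) * (tJ J : ℝ) ≤ (n₁ - 1) * (tt * J + C₁) :=
    mul_le_mul_of_nonneg_left (by linarith [(abs_le.1 (ht J)).2]) (by linarith)
  have s3 : (∑ l ∈ range n₁, ((J : ℝ) - g J l)) +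
      (∑ l ∈ Finset.Ico n₁ n₀, ((J : ℝ) - (⌊b l * (J : ℝ)⌋₊ : ℕ))) + (n₁ - 1) * tJ J - aJ J ≤
      num * J + (2 * n₁ * C₁ + C₁ + n₀) := by
    have := (abs_le.1 (ha J)).1
    rw [hnum]
    have e9 : ((n₁ : ℝ) - 1) * (tt * J + C₁) = (n₁ - 1) * tt * J + (n₁ - 1) * C₁ := by ring
    rw [e9] at s2
    linarith
  have s4 := mul_le_mul_of_nonneg_right s3 hl2.le
  have s5 : (X₀ - ρ) * Real.log 2 * J ≤ (num * J + (2 * n₁ * C₁ + C₁ + n₀)) * Real.log 2 +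
      (n₁ + 1 + n₀) * Real.log (2 * CC + 9) := h8.trans (by linarith)
  have s6 : X₀ - ρ = num + ρ := by rw [hρ]; ring
  rw [s6] at s5
  have s7 : ρ * Real.log 2 * J ≤ (2 * n₁ * C₁ + C₁ + n₀) * Real.log 2 +
      (n₁ + 1 + n₀) * Real.log (2 * CC + 9) := by linarith
  linarith

end Pool.NSL89
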