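import Pool.Agent.H78.TT.NobV

/-!
# Ties at the top speed: see `H78/TT/{NobU,NobV}`

`noB_T`, `LTaYX`, `lTaYX` are in `H78/TT/NobU` and `H78/TT/NobV`.
-/
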