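import Pool.Agent.H89.NSL.Fld
import Pool.Agent.H89.TGT.NtI
import Pool.Agent.H33.EXC.Yre
import Pool.Agent.H78.TT.KdA

/-!
# No slabs, on the boxes of a class

`NslI` (helper78) from the facts of the boxes: `nslI_of_supY`, `nslI_supY` (at most four
coordinates) and `nslI_supE` (from the chains at the boxes).
-/

set_option autoImplicit false

namespace Pool.NSL89

open Finset Real MvPolynomial Filter
open Pool.Agent.H49.Ent Pool.Agent.H32.Dense Pool.STK Pool.KA Pool.KSAT Pool.K2S Pool.PB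
open Pool.PB.Trl Pool.STAT Pool.STAT.CLO Pool.GEN Pool.S6C Pool.GEN.N83 Pool.REX83
open Pool.STR (NfB Nw NumI Rle)
open Pool.ALL (RateOf)
open Pool.CHT (TmH bet)
open Pool.CHB (chsysB)
open Pool.LBT (ThrOf)
open Pool.EXC33 Pool.PKG Pool.STA
open Pool.SUPA (FF)
open Pool.OWN72 (RecExh)
open Pool.TOP (TopS)
open Pool.RTS (iso)

variable {n : ℕ} {hn : 2 ≤ n} {S : PCl n} {P : ℝ → ℝ → ℝ} {rr : ℝ → ℝ}
  {P' : ℕ → List (Fin n) × Fin n → ℝ → ℝ → ℝ} {Λ : Finset (Fin n) → Fin n → ℝ → ℝ → ℝ}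
  {PB : ℕ → List (Fin n) × Fin n → ℝ → ℝ → ℝ}
  (H : PkT hn S P rr P' Λ PB) {hTop : TopS n} {hF : FZX (n - 1)}
  {ρ' : ℝ → ℝ} {hρ : Rle rr ρ'}

/-- **No slabs**, on the boxes of a class, from the facts of the boxes. -/
theorem nslI_of_supY {p : ((H.nk hTop hF).chg hρ H.up).Par} {I : ℝ → BS p.cell → Prop}
    (hI : MonoI I) {c β h' Mr : ℝ} (hbs : ∀ ε q, I ε q → IsBS p.cell c β h' Mr ε q)
    (hc : 0 < c) (hβ : 0 < β)
    (hpI : ∀ c (k : p.α × Od n) Q g ρ, p.Ad' c k Q g ρ → AdI hn S P P' c k.2 g ρ)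
    (hR : RecExh n (n - 1)) (hFk : ∀ k ≤ n - 1, FZX k) {al : ℝ} {g₀ : ℝ → ℝ} (hal : 0 < al)
    (hg₀ : ∀ e, 0 < e → 0 < g₀ e) {be co : ℝ} (hbe : 0 < be) (hbe1 : be ≤ 1) (hco : 0 < co)
    (hs : SupY H p I al g₀ be co) : NslI H p I := by
  intro K K' s₁ sh hK hK'
  have hT : 0 ≤ 1 / c + 1 := by positivity
  obtain ⟨C₄, h1⟩ := nosl_kit (S := S) hI H.tmh.1 (kitN H p K).kit
    (fun q => kit_inj H p K q.k) hT
    (fun ε' hε' => (KitS.cel (Kt := kitN H p K) (M := Mr) (h := h') hc hβ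
      (cls_hP H) (cls_hD H) (KitS.hlt_of hc (cls_hlt H hpI)) ε' hε').sub hbs)
    (s₁ := s₁) (sh := sh) hK' (ka := 1) le_rfl (fun M => by
      have q1 := zmIe_of_supY H hI hbs hR hFk hal hg₀ hbe hbe1 hco hs K K' s₁ sh hK hK'
        (show (0 : ℝ) < 1 by norm_num) M
      have q2 := EvQ.self I 1 (θ₀ := 1) (ε := fun _ _ => 1) one_pos (fun _ _ _ => one_pos)
      refine (q1.and hI q2).mono ?_
      rintro N θ q ⟨r1, hN, -, -, r2⟩
      have hq := hbs _ _ r2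
      have hr := hq.r0
      have hNr : (1 : ℝ) ≤ N := by exact_mod_cast hN
      have hM0 : (0 : ℝ) ≤ M := Nat.cast_nonneg M
      have hζ0 : 0 < msh q.r N M := by
        unfold msh
        positivity
      have hn0 : (0 : ℝ) < ((n - 1 : ℕ) : ℝ) + 1 := by positivity
      refine ⟨_, ?_, r1⟩
      have : 0 < min (1 : ℝ) 1 := lt_min one_pos one_pos
      positivity)
  exact ⟨C₄, h1⟩

/-- **No slabs**, from the facts of the boxes, at most four coordinates. -/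
theorem nslI_supY (hn4 : n ≤ 4) {p : ((H.nk hTop hF).chg hρ H.up).Par}
    {I : ℝ → BS p.cell → Prop} (hI : MonoI I) {c β h' Mr : ℝ}
    (hbs : ∀ ε q, I ε q → IsBS p.cell c β h' Mr ε q) (hc : 0 < c) (hβ : 0 < β)
    (hpI : ∀ c (k : p.α × Od n) Q g ρ, p.Ad' c k Q g ρ → AdI hn S P P' c k.2 g ρ)
    (hFk : ∀ k ≤ n - 1, FZX k) {al : ℝ} {g₀ : ℝ → ℝ} (hal : 0 < al)
    (hg₀ : ∀ e, 0 < e → 0 < g₀ e) {be co : ℝ} (hbe : 0 < be) (hbe1 : be ≤ 1) (hco : 0 < co)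
    (hs : SupY H p I al g₀ be co) : NslI H p I :=
  nslI_of_supY H hI hbs hc hβ hpI (Pool.OWN72.rec_exh n (n - 1) (by omega) (by omega)) hFk hal hg₀
    hbe hbe1 hco hs

/-- **No slabs**, from the chains at the boxes, at most four coordinates. -/
theorem nslI_supE (hn4 : n ≤ 4) {p : ((H.nk hTop hF).chg hρ H.up).Par}
    {I : ℝ → BS p.cell → Prop} (hI : MonoI I) {c β h' Mr : ℝ}
    (hbs : ∀ ε q, I ε q → IsBS p.cell c β h' Mr ε q) (hc : 0 < c) (hβ : 0 < β)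
    (hpI : ∀ c (k : p.α × Od n) Q g ρ, p.Ad' c k Q g ρ → AdI hn S P P' c k.2 g ρ)
    (hFk : ∀ k ≤ n - 1, FZX k) {al : ℝ} {g₀ : ℝ → ℝ} (hal : 0 < al)
    (hg₀ : ∀ e, 0 < e → 0 < g₀ e) {be co : ℝ} (hbe : 0 < be) (hbe1 : be ≤ 1) (hco : 0 < co)
    (hE : SupE H p I al g₀ be co) (hX : ExwB H p I) : NslI H p I :=
  nslI_supY H hn4 hI hbs hc hβ hpI hFk hal hg₀ hbe hbe1 hco
    (supY_of_supE H hI hbs hbe hco hE hX)

end Pool.NSL89
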