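import Pool.Agent.H89.IMG.Nsl
import Pool.Agent.H65.ORD.Ubn

/-!
# Heights in a slab, and the entropy of the base

`SlD F`: keys, heights, lines and a slab (a covector and a constant, functions of the key). `Slb`: the
first `n₁` coordinates of the base have heights in natural units which are near lines, and the
velocities of the lines are in the slab. `slb_part`: the value of the covector at the beginning of
the window is a closed value. `cnt_slb`: upper bound of the entropy of the base.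
-/

set_option autoImplicit false

namespace Pool.NSL89

open Finset Real MvPolynomial
open Pool.Agent.H49.Ent Pool.Agent.H32.Dense Pool.STK Pool.KA Pool.KSAT Pool.K2S Pool.PB Pool.S6C
open Pool.GEN Pool.REX Pool.REX83 Pool.TGT Pool.ORD65
open Pool.TUB (lo lo_eq lo_ext seq_up CH_le_dig)

variable {m J : ℕ}

/-- **Data of a slab.** -/
structure SlD (F : Fam m J) : Type 1 where
  κ : Type
  key : F.Ω → κ
  H : F.Ω → ℕ → ℝ
  aa : F.Ω → ℕ → ℝ
  bb : F.Ω → ℕ → ℝ
  tm : F.Ω → ℝ
  nn : κ → ℕ → ℝ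
  al : κ → ℝ

/-- **Heights near lines with velocities in a slab.** -/
structure Slb (F : Fam m J) (c : ℕ → Fin m) (n₁ p : ℕ) (g : ℕ → ℕ) (t a W : ℕ) (d : SlD F)
    (A : F.Ω → Prop) : Prop where
  dH : ∀ ω ω', A ω → A ω' → d.key ω = d.key ω' → F.T ω = F.T ω' → ∀ l < n₁,
    (∀ j < l, |F.x ω (c j) - F.x ω' (c j)| ≤ 1 / 2 ^ J) →
    |2 ^ g l * (F.x ω (c l) - F.x ω' (c l)) - (d.H ω l - d.H ω' l)| ≤ 1 / 2 ^ a
  nat : ∀ ω, A ω → ∀ l < n₁, |d.H ω l| ≤ 2 ^ t
  lin : ∀ ω, A ω → ∀ l < n₁, |d.H ω l - (d.aa ω l + d.tm ω * d.bb ω l)| ≤ 1 / 2 ^ a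
  tm1 : ∀ ω, |d.tm ω| ≤ 1
  tmT : ∀ ω ω', F.T ω = F.T ω' → d.tm ω = d.tm ω'
  nn1 : ∀ y, ∀ l < n₁, |d.nn y l| ≤ 1
  nnp : ∀ y, 1 ≤ |d.nn y p|
  slb : ∀ ω, A ω → |∑ l ∈ range n₁, d.nn (d.key ω) l * d.bb ω l - d.al (d.key ω)| ≤ 1 / 2 ^ a
  kyl : ∀ ω ω', slam F W ω = slam F W ω' → d.key ω = d.key ω' ∧ ∀ l, d.aa ω l = d.aa ω' l

variable {F : Fam m J} {c : ℕ → Fin m} {n₀ n₁ p t a W : ℕ} {g : ℕ → ℕ} {d : SlD F}
  {A : F.Ω → Prop}

theorem Slb.sub {B : F.Ω → Prop} (h : Slb F c n₁ p g t a W d A) (hB : Sub B A) :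
    Slb F c n₁ p g t a W d B :=
  ⟨fun ω ω' h1 h2 => h.dH ω ω' (hB ω h1) (hB ω' h2), fun ω h1 => h.nat ω (hB ω h1),
    fun ω h1 => h.lin ω (hB ω h1), h.tm1, h.tmT, h.nn1, h.nnp, fun ω h1 => h.slb ω (hB ω h1),
    h.kyl⟩

/-- The value of the covector at the beginning of the window, to `a` digits. -/
noncomputable def SlD.slv (d : SlD F) (n₁ a : ℕ) (ω : F.Ω) : ℤ :=
  ⌊(2 : ℝ) ^ a * ∑ l ∈ range n₁, d.nn (d.key ω) l * d.aa ω l⌋

/-- The covector at a sample. -/
theorem Slb.cov (h : Slb F c n₁ p g t a W d A) {ω : F.Ω} (hω : A ω) :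
    |∑ l ∈ range n₁, d.nn (d.key ω) l * d.H ω l -
      (∑ l ∈ range n₁, d.nn (d.key ω) l * d.aa ω l + d.tm ω * d.al (d.key ω))| ≤
        (n₁ + 1) * (1 / 2 ^ a) := by
  obtain ⟨y, hy⟩ : ∃ y, y = d.key ω := ⟨_, rfl⟩
  have hs1 := h.slb ω hω
  rw [← hy] at hs1 ⊢
  have e1 : ∑ l ∈ range n₁, d.nn y l * d.H ω l -
      (∑ l ∈ range n₁, d.nn y l * d.aa ω l + d.tm ω * d.al y) =
      ∑ l ∈ range n₁, d.nn y l * (d.H ω l - (d.aa ω l + d.tm ω * d.bb ω l)) +
        d.tm ω * (∑ l ∈ range n₁, d.nn y l * d.bb ω l - d.al y) := by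
    have e2 : ∑ l ∈ range n₁, d.nn y l * (d.H ω l - (d.aa ω l + d.tm ω * d.bb ω l)) =
        ∑ l ∈ range n₁, d.nn y l * d.H ω l - ∑ l ∈ range n₁, d.nn y l * d.aa ω l -
          d.tm ω * ∑ l ∈ range n₁, d.nn y l * d.bb ω l := by
      rw [Finset.mul_sum, ← Finset.sum_sub_distrib, ← Finset.sum_sub_distrib]
      exact Finset.sum_congr rfl fun l _ => by ring
    rw [e2]
    ring
  rw [e1]
  refine (abs_add_le _ _).trans ?_
  have e3 : |∑ l ∈ range n₁, d.nn y l * (d.H ω l - (d.aa ω l + d.tm ω * d.bb ω l))| ≤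
      n₁ * (1 / 2 ^ a) := by
    refine (Finset.abs_sum_le_sum_abs _ _).trans ?_
    calc ∑ l ∈ range n₁, |d.nn y l * (d.H ω l - (d.aa ω l + d.tm ω * d.bb ω l))| ≤
        ∑ _l ∈ range n₁, (1 : ℝ) / 2 ^ a := Finset.sum_le_sum fun l hl => by
          rw [abs_mul]
          calc |d.nn y l| * |d.H ω l - (d.aa ω l + d.tm ω * d.bb ω l)| ≤ 1 * (1 / 2 ^ a) :=
                mul_le_mul (h.nn1 y l (mem_range.1 hl)) (h.lin ω hω l (mem_range.1 hl))
                  (abs_nonneg _) zero_le_one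
            _ = 1 / 2 ^ a := one_mul _
      _ = n₁ * (1 / 2 ^ a) := by rw [Finset.sum_const, Finset.card_range, nsmul_eq_mul]
  have e4 : |d.tm ω * (∑ l ∈ range n₁, d.nn y l * d.bb ω l - d.al y)| ≤ 1 / 2 ^ a := by
    rw [abs_mul]
    calc |d.tm ω| * |∑ l ∈ range n₁, d.nn y l * d.bb ω l - d.al y| ≤ 1 * (1 / 2 ^ a) :=
          mul_le_mul (h.tm1 ω) hs1 (abs_nonneg _) zero_le_one
      _ = 1 / 2 ^ a := one_mul _
  have e5 : ((n₁ : ℝ) + 1) * (1 / 2 ^ a) = n₁ * (1 / 2 ^ a) + 1 / 2 ^ a := by ring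
  rw [e5]
  exact add_le_add e3 e4

/-- The covector at two samples with the same key and the same time. -/
theorem Slb.cov2 (h : Slb F c n₁ p g t a W d A) {ω ω' : F.Ω} (hω : A ω) (hω' : A ω')
    (hk : d.key ω = d.key ω') (hT : F.T ω = F.T ω') :
    |∑ l ∈ range n₁, d.nn (d.key ω) l * (d.H ω l - d.H ω' l) -
      (∑ l ∈ range n₁, d.nn (d.key ω) l * d.aa ω l -
        ∑ l ∈ range n₁, d.nn (d.key ω) l * d.aa ω' l)| ≤ (2 * n₁ + 2) * (1 / 2 ^ a) := by
  have c1 := h.cov hω
  have c2 := h.cov hω'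
  rw [← hk, ← h.tmT ω ω' hT] at c2
  have e8 : ∑ l ∈ range n₁, d.nn (d.key ω) l * (d.H ω l - d.H ω' l) =
      ∑ l ∈ range n₁, d.nn (d.key ω) l * d.H ω l -
        ∑ l ∈ range n₁, d.nn (d.key ω) l * d.H ω' l := by
    rw [← Finset.sum_sub_distrib]
    exact Finset.sum_congr rfl fun l _ => by ring
  rw [e8]
  rw [abs_le] at c1 c2 ⊢
  constructor <;> linarith [c1.1, c1.2, c2.1, c2.2]

/-- **In a slab the value of the covector is closed**, on a large part of the event. -/
theorem Slb.part (h : Slb F c n₁ p g t a W d A) (hga : ∀ l < n₁, g l + a ≤ J) :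
    ∃ B : F.Ω → Prop, Sub B A ∧ Pe F.p A ≤ (2 * ((4 * n₁ + 3 : ℕ) : ℝ) + 1) ^ 1 * Pe F.p B ∧
      ∀ ω ω', B ω → B ω' → ptr F J ω = ptr F J ω' → d.key ω = d.key ω' →
        d.slv n₁ a ω = d.slv n₁ a ω' := by
  obtain ⟨B, b4, b5, φ, b6⟩ := Pool.S6K.exact_label F.isLaw (4 * n₁ + 3)
    (fun ω => (ptr F J ω, d.key ω)) (fun ω (_ : Fin 1) => d.slv n₁ a ω) A
    (fun ω ω' hω hω' hp _ => by
      have h0 := Prod.ext_iff.mp hp
      have e1 := Prod.ext_iff.mp h0.1
      have e2 := Prod.ext_iff.mp e1.2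
      have hT : F.T ω = F.T ω' := e2.1
      have hX : F.X J ω = F.X J ω' := e1.1
      have hk : d.key ω = d.key ω' := h0.2
      have c1 := h.cov2 hω hω' hk hT
      have c3 : |∑ l ∈ range n₁, d.nn (d.key ω) l * (d.H ω l - d.H ω' l)| ≤
          n₁ * (2 * (1 / 2 ^ a)) := by
        refine (Finset.abs_sum_le_sum_abs _ _).trans ?_
        calc ∑ l ∈ range n₁, |d.nn (d.key ω) l * (d.H ω l - d.H ω' l)| ≤
            ∑ _l ∈ range n₁, 2 * ((1 : ℝ) / 2 ^ a) := Finset.sum_le_sum fun l hl => by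
              have hl' := mem_range.1 hl
              have e5 := h.dH ω ω' hω hω' hk hT l hl' fun j _ => x_near F (congrFun hX (c j))
              have e6 : |2 ^ g l * (F.x ω (c l) - F.x ω' (c l))| ≤ 1 / 2 ^ a := by
                have e7 := x_near F (congrFun hX (c l))
                rw [abs_mul, abs_of_pos (by positivity : (0 : ℝ) < 2 ^ g l)]
                refine (mul_le_mul_of_nonneg_left e7 (by positivity)).trans ?_
                rw [mul_one_div, div_le_div_iff₀ (by positivity) (by positivity), one_mul,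
                  ← pow_add]
                exact pow_le_pow_right₀ (by norm_num) (hga l hl')
              have e7 : |d.H ω l - d.H ω' l| ≤ 2 * (1 / 2 ^ a) := by
                rw [abs_le] at e5 e6 ⊢
                constructor <;> linarith [e5.1, e5.2, e6.1, e6.2]
              rw [abs_mul]
              calc |d.nn (d.key ω) l| * |d.H ω l - d.H ω' l| ≤ 1 * (2 * (1 / 2 ^ a)) :=
                    mul_le_mul (h.nn1 _ l hl') e7 (abs_nonneg _) zero_le_one
                _ = 2 * (1 / 2 ^ a) := one_mul _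
          _ = n₁ * (2 * (1 / 2 ^ a)) := by
            rw [Finset.sum_const, Finset.card_range, nsmul_eq_mul]
      have c4 : |∑ l ∈ range n₁, d.nn (d.key ω) l * d.aa ω l -
          ∑ l ∈ range n₁, d.nn (d.key ω) l * d.aa ω' l| ≤ (4 * n₁ + 2) * (1 / 2 ^ a) := by
        rw [abs_le] at c1 c3 ⊢
        constructor <;> linarith [c1.1, c1.2, c3.1, c3.2]
      have c5 : |((d.slv n₁ a ω - d.slv n₁ a ω' : ℤ) : ℝ)| ≤ (4 * n₁ + 2) + 1 := by
        unfold SlD.slv
        rw [← hk]
        refine Pool.TUB.floor_dist ?_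
        rw [← mul_sub, abs_mul, abs_of_pos (by positivity : (0 : ℝ) < 2 ^ a)]
        refine (mul_le_mul_of_nonneg_left c4 (by positivity)).trans (le_of_eq ?_)
        field_simp
      have c6 : |((d.slv n₁ a ω - d.slv n₁ a ω' : ℤ) : ℝ)| ≤ ((4 * n₁ + 3 : ℕ) : ℝ) := by
        have e8 : ((4 * n₁ + 3 : ℕ) : ℝ) = (4 * n₁ + 2) + 1 := by
          push_cast
          ring
        rw [e8]
        exact c5
      exact_mod_cast c6)
  refine ⟨B, b4, b5, fun ω ω' hω hω' hp hk => ?_⟩
  have e1 : d.slv n₁ a ω = φ (ptr F J ω, d.key ω) 0 := congrFun (b6 ω hω) 0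
  have e2 : d.slv n₁ a ω' = φ (ptr F J ω', d.key ω') 0 := congrFun (b6 ω' hω') 0
  rw [e1, e2, hp, hk]

/-- The key and the value of the covector are functions of the line and of the window. -/
theorem Slb.ofl (h : Slb F c n₁ p g t a W d A) {ω ω' : F.Ω}
    (e : slam F W ω = slam F W ω') :
    (d.key ω, d.slv n₁ a ω) = (d.key ω', d.slv n₁ a ω') := by
  obtain ⟨h1, h2⟩ := h.kyl ω ω' e
  refine Prod.ext h1 ?_
  show d.slv n₁ a ω = d.slv n₁ a ω'
  unfold SlD.slv
  rw [h1]
  have h3 : ∑ l ∈ range n₁, d.nn (d.key ω') l * d.aa ω l =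
      ∑ l ∈ range n₁, d.nn (d.key ω') l * d.aa ω' l := Finset.sum_congr rfl fun l _ => by
    rw [h2 l]
  rw [h3]

/-- **The height of the pivot is known** to `a` digits, given the heights of the others and the
value of the covector. -/
theorem Slb.piv (h : Slb F c n₁ p g t a W d A) (hp : p < n₁) {ω ω' : F.Ω} (hω : A ω) (hω' : A ω')
    (hk : d.key ω = d.key ω') (hT : F.T ω = F.T ω') (hU : d.slv n₁ a ω = d.slv n₁ a ω')
    (hH : ∀ l < n₁, l ≠ p → ⌊(2 : ℝ) ^ a * d.H ω l⌋ = ⌊(2 : ℝ) ^ a * d.H ω' l⌋) :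
    |d.H ω p - d.H ω' p| ≤ (3 * n₁ + 3) / 2 ^ a := by
  have c1 := h.cov2 hω hω' hk hT
  unfold SlD.slv at hU
  rw [← hk] at hU
  obtain ⟨y, hyd⟩ : ∃ y, y = d.key ω := ⟨_, rfl⟩
  rw [← hyd] at c1 hU
  have u1 := (Int.abs_sub_lt_one_of_floor_eq_floor hU).le
  rw [← mul_sub, abs_mul, abs_of_pos (by positivity : (0 : ℝ) < 2 ^ a)] at u1
  have u2 : |∑ l ∈ range n₁, d.nn y l * d.aa ω l - ∑ l ∈ range n₁, d.nn y l * d.aa ω' l| ≤
      1 / 2 ^ a := by
    rw [le_div_iff₀ (by positivity)]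
    linarith
  have u3 : |∑ l ∈ range n₁, d.nn y l * (d.H ω l - d.H ω' l)| ≤ (2 * n₁ + 3) * (1 / 2 ^ a) := by
    rw [abs_le] at c1 u2 ⊢
    constructor <;> linarith [c1.1, c1.2, u2.1, u2.2]
  rw [← Finset.add_sum_erase (range n₁) _ (mem_range.2 hp)] at u3
  have u4 : |∑ l ∈ (range n₁).erase p, d.nn y l * (d.H ω l - d.H ω' l)| ≤
      n₁ * (1 / 2 ^ a) := by
    refine (Finset.abs_sum_le_sum_abs _ _).trans ?_
    calc ∑ l ∈ (range n₁).erase p, |d.nn y l * (d.H ω l - d.H ω' l)| ≤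
          ∑ _l ∈ (range n₁).erase p, (1 : ℝ) / 2 ^ a := Finset.sum_le_sum fun l hl => by
            have hl' := Finset.mem_erase.1 hl
            have hln := mem_range.1 hl'.2
            have a1 := (Int.abs_sub_lt_one_of_floor_eq_floor (hH l hln hl'.1)).le
            rw [← mul_sub, abs_mul, abs_of_pos (by positivity : (0 : ℝ) < 2 ^ a)] at a1
            have a2 : |d.H ω l - d.H ω' l| ≤ 1 / 2 ^ a := by
              rw [le_div_iff₀ (by positivity)]
              linarith
            rw [abs_mul]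
            calc |d.nn y l| * |d.H ω l - d.H ω' l| ≤ 1 * (1 / 2 ^ a) :=
                  mul_le_mul (h.nn1 y l hln) a2 (abs_nonneg _) zero_le_one
              _ = 1 / 2 ^ a := one_mul _
      _ ≤ n₁ * (1 / 2 ^ a) := by
          rw [Finset.sum_const, nsmul_eq_mul]
          refine mul_le_mul_of_nonneg_right ?_ (by positivity)
          have := Finset.card_erase_le (s := range n₁) (a := p)
          rw [Finset.card_range] at this
          exact_mod_cast this
  have u5 : |d.nn y p * (d.H ω p - d.H ω' p)| ≤ (3 * n₁ + 3) * (1 / 2 ^ a) := by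
    rw [abs_le] at u3 u4 ⊢
    constructor <;> linarith [u3.1, u3.2, u4.1, u4.2]
  rw [abs_mul] at u5
  have u6 := h.nnp y
  have u7 : |d.H ω p - d.H ω' p| ≤ |d.nn y p| * |d.H ω p - d.H ω' p| := by
    have := mul_le_mul_of_nonneg_right u6 (abs_nonneg (d.H ω p - d.H ω' p))
    linarith
  refine (u7.trans u5).trans (le_of_eq ?_)
  ring

/-- **The entropy of the base in a slab.** -/
theorem Slb.cnt (h : Slb F c n₁ p g t a W d A) (hn : n₁ ≤ n₀) (hp : p < n₁)
    (hga : ∀ l < n₁, g l + a ≤ J) {G : ℕ → ℕ} (hG : ∀ l, n₁ ≤ l → l < n₀ → G l ≤ J)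
    {q : F.Ω → ℝ} (hq : IsLaw q) (hA : ∀ ω, 0 < q ω → A ω) {Γ : Type} (Y : F.Ω → Γ)
    (hY : ∀ ω ω', A ω → A ω' → Y ω = Y ω' →
      d.key ω = d.key ω' ∧ F.T ω = F.T ω' ∧ d.slv n₁ a ω = d.slv n₁ a ω') {C : ℝ}
    (hC : 3 * n₁ + 3 ≤ C)
    (hball : ∀ ω ω', A ω → A ω' → Y ω = Y ω' → ∀ l, n₁ ≤ l → l < n₀ →
      (∀ k < l, |F.x ω (c k) - F.x ω' (c k)| ≤ 1 / 2 ^ J) →
      |F.x ω (c l) - F.x ω' (c l)| ≤ C / 2 ^ G l) :
    CH q (fun ω (l : Fin n₀) => F.X J ω (c l)) Y ≤
      ((∑ l ∈ range n₁, ((J : ℝ) - g l)) + (∑ l ∈ Finset.Ico n₁ n₀, ((J : ℝ) - G l)) +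
        (n₁ - 1) * t - a) * Real.log 2 + (n₁ + 1 + n₀) * Real.log (2 * C + 9) := by
  classical
  obtain ⟨K', hK⟩ : ∃ K', K' = Real.log (2 * C + 9) := ⟨_, rfl⟩
  have hn0 : (0 : ℝ) ≤ n₁ := Nat.cast_nonneg _
  have hC1 : 1 ≤ C := by linarith
  have hK0 : 0 ≤ K' := by
    rw [hK]
    exact Real.log_nonneg (by linarith)
  have hl2 : 0 < Real.log 2 := Real.log_pos one_lt_two
  obtain ⟨H, hH⟩ : ∃ H : F.Ω → ℕ → ℤ, H = fun ω l => ⌊(2 : ℝ) ^ a * d.H ω l⌋ := ⟨_, rfl⟩
  obtain ⟨X, hX⟩ : ∃ X : F.Ω → ℕ → ℤ, X = fun ω l => if l < n₁ then (if l = p then 0 else H ω l)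
    else if l = n₁ then H ω p else F.X J ω (c (l - n₁ - 1)) := ⟨_, rfl⟩
  obtain ⟨e, he⟩ : ∃ e : ℕ → ℝ, e = fun l => if l < n₁ then
      (if l = p then 0 else ((a : ℝ) + t) * Real.log 2) + K' else
    if l = n₁ then K' else if l - n₁ - 1 < n₁ then
      ((J : ℝ) - g (l - n₁ - 1) - a) * Real.log 2 + K' else
      ((J : ℝ) - G (l - n₁ - 1)) * Real.log 2 + K' := ⟨_, rfl⟩
  have hlog : ∀ (x D : ℝ) (d : ℕ), x ≤ D * 2 ^ d → 0 < x → 0 < D → D ≤ 2 * C + 9 →
      Real.log x ≤ (d : ℝ) * Real.log 2 + K' := by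
    intro x D d h1 h2 h3 h4
    refine (Real.log_le_log h2 h1).trans ?_
    rw [Real.log_mul h3.ne' (by positivity), Real.log_pow, hK]
    have := Real.log_le_log h3 h4
    linarith
  have hXp : ∀ ω, X ω n₁ = H ω p := fun ω => by
    rw [hX]
    simp only
    rw [if_neg (lt_irrefl _), if_pos trivial]
  have hXl : ∀ ω, ∀ l < n₁, l ≠ p → X ω l = H ω l := fun ω l hl hlp => by
    rw [hX]
    simp only
    rw [if_pos hl, if_neg hlp]
  have hXx : ∀ ω l, X ω (n₁ + 1 + l) = F.X J ω (c l) := fun ω l => by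
    rw [hX]
    simp only
    rw [if_neg (by omega), if_neg (by omega)]
    have e4 : n₁ + 1 + l - n₁ - 1 = l := by omega
    rw [e4]
  have hflo : ∀ (x y D : ℝ), |x - y| ≤ D → |((⌊(2 : ℝ) ^ a * x⌋ - ⌊(2 : ℝ) ^ a * y⌋ : ℤ) : ℝ)| ≤
      2 ^ a * D + 1 := by
    intro x y D hxy
    refine Pool.TUB.floor_dist ?_
    rw [← mul_sub, abs_mul, abs_of_pos (by positivity : (0 : ℝ) < 2 ^ a)]
    exact mul_le_mul_of_nonneg_left hxy (by positivity)
  have h1' := seq_up hq X Y 0 e (n₁ + 1 + n₀) (Nat.zero_le _) fun l _ hl => by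
    obtain ⟨V, hV⟩ : ∃ V : F.Ω → (ℕ → ℤ) × Γ, V = fun ω => (lo l X ω, Y ω) := ⟨_, rfl⟩
    rw [← hV]
    by_cases hln : l < n₁
    · by_cases hlp : l = p
      · have key : CH q (fun ω => X ω l) V ≤ Real.log (2 * 0 + 1) := by
          refine CH_le_dig hq _ _ fun ω ω' h1 h2 hWe => ?_
          rw [hX]
          simp only
          rw [if_pos hln, if_pos hlp, if_pos hln, if_pos hlp]
          simp
        refine key.trans ?_
        rw [he]
        simp only
        rw [if_pos hln, if_pos hlp]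
        simp only [mul_zero, zero_add, Real.log_one]
        exact hK0
      · have key : CH q (fun ω => X ω l) V ≤ Real.log (2 * (2 ^ a * (2 * 2 ^ t) + 1) + 1) := by
          refine CH_le_dig hq _ _ fun ω ω' h3 h4 hWe => ?_
          rw [hXl ω l hln hlp, hXl ω' l hln hlp, hH]
          refine hflo _ _ _ ?_
          have a1 := h.nat ω (hA ω h3) l hln
          have a2 := h.nat ω' (hA ω' h4) l hln
          rw [abs_le] at a1 a2 ⊢
          constructor <;> linarith [a1.1, a1.2, a2.1, a2.2]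
        refine key.trans ?_
        rw [he]
        simp only
        rw [if_pos hln, if_neg hlp]
        have p1 : (1 : ℝ) ≤ 2 ^ (a + t) := one_le_pow₀ (by norm_num)
        have h3 := hlog (2 * (2 ^ a * (2 * 2 ^ t) + 1) + 1) 7 (a + t) (by
          rw [pow_add] at p1 ⊢
          nlinarith) (by positivity) (by norm_num) (by linarith)
        push_cast at h3
        exact h3
    · by_cases hln2 : l = n₁
      · subst hln2
        have key : CH q (fun ω => X ω l) V ≤
            Real.log (2 * (2 ^ a * ((3 * (l : ℝ) + 3) / 2 ^ a) + 1) + 1) := by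
          refine CH_le_dig hq _ _ fun ω ω' h3 h4 hWe => ?_
          rw [hV] at hWe
          have e1 := Prod.ext_iff.1 hWe
          obtain ⟨z1, z2, z3⟩ := hY ω ω' (hA ω h3) (hA ω' h4) e1.2
          rw [hXp, hXp, hH]
          refine hflo _ _ _ ?_
          refine h.piv hp (hA ω h3) (hA ω' h4) z1 z2 z3 fun j hj hjp => ?_
          have e3 := lo_eq e1.1 hj
          rw [hXl ω j hj hjp, hXl ω' j hj hjp, hH] at e3
          exact e3
        refine key.trans ?_
        rw [he]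
        simp only
        rw [if_neg (lt_irrefl _), if_pos trivial]
        have e5 : (2 : ℝ) ^ a * ((3 * (l : ℝ) + 3) / 2 ^ a) = 3 * l + 3 := by
          field_simp
        rw [e5, hK]
        exact Real.log_le_log (by positivity) (by linarith)
      · obtain ⟨j, hj⟩ : ∃ j, l = n₁ + 1 + j := ⟨l - (n₁ + 1), by omega⟩
        have hjn : j < n₀ := by omega
        have e4 : l - n₁ - 1 = j := by omega
        by_cases hj1 : j < n₁
        · have hgj := hga j hj1
          have key : CH q (fun ω => X ω l) V ≤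
              Real.log (2 * (2 * 2 ^ (J - (g j + a)) + 1) + 1) := by
            refine CH_le_dig hq _ _ fun ω ω' h3 h4 hWe => ?_
            rw [hV] at hWe
            have e1 := Prod.ext_iff.1 hWe
            obtain ⟨z1, z2, z3⟩ := hY ω ω' (hA ω h3) (hA ω' h4) e1.2
            have e5 : H ω j = H ω' j := by
              by_cases hjp : j = p
              · have e3 := lo_eq e1.1 (show n₁ < l by omega)
                rw [hXp, hXp] at e3
                rw [hjp]
                exact e3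
              · have e3 := lo_eq e1.1 (show j < l by omega)
                rwa [hXl ω j hj1 hjp, hXl ω' j hj1 hjp] at e3
            have e6 : ∀ i < j, F.X J ω (c i) = F.X J ω' (c i) := fun i hi => by
              have e3 := lo_eq e1.1 (show n₁ + 1 + i < l by omega)
              rwa [hXx ω i, hXx ω' i] at e3
            rw [hj, hXx ω j, hXx ω' j]
            refine X_near F hgj ?_
            have e7 := h.dH ω ω' (hA ω h3) (hA ω' h4) z1 z2 j hj1 fun i hi => x_near F (e6 i hi)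
            have e8 : |d.H ω j - d.H ω' j| ≤ 1 / 2 ^ a := by
              rw [hH] at e5
              have a1 := (Int.abs_sub_lt_one_of_floor_eq_floor e5).le
              rw [← mul_sub, abs_mul, abs_of_pos (by positivity : (0 : ℝ) < 2 ^ a)] at a1
              rw [le_div_iff₀ (by positivity)]
              linarith
            have e9 : |2 ^ g j * (F.x ω (c j) - F.x ω' (c j))| ≤ 2 / 2 ^ a := by
              have e10 : (2 : ℝ) / 2 ^ a = 1 / 2 ^ a + 1 / 2 ^ a := by ring
              rw [e10]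
              rw [abs_le] at e7 e8 ⊢
              constructor <;> linarith [e7.1, e7.2, e8.1, e8.2]
            rw [abs_mul, abs_of_pos (by positivity : (0 : ℝ) < 2 ^ g j),
              le_div_iff₀ (by positivity)] at e9
            rw [le_div_iff₀ (by positivity), pow_add]
            linarith
          refine key.trans ?_
          rw [he]
          simp only
          rw [if_neg hln, if_neg hln2, e4, if_pos hj1]
          have p1 : (1 : ℝ) ≤ 2 ^ (J - (g j + a)) := one_le_pow₀ (by norm_num)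
          have h3 := hlog (2 * (2 * 2 ^ (J - (g j + a)) + 1) + 1) 7 (J - (g j + a)) (by nlinarith)
            (by positivity) (by norm_num) (by linarith)
          rw [Nat.cast_sub hgj] at h3
          push_cast at h3
          linarith
        · have hgj := hG j (by omega) hjn
          have key : CH q (fun ω => X ω l) V ≤
              Real.log (2 * (C * 2 ^ (J - G j) + 1) + 1) := by
            refine CH_le_dig hq _ _ fun ω ω' h3 h4 hWe => ?_
            rw [hV] at hWe
            have e1 := Prod.ext_iff.1 hWe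
            have e6 : ∀ i < j, F.X J ω (c i) = F.X J ω' (c i) := fun i hi => by
              have e3 := lo_eq e1.1 (show n₁ + 1 + i < l by omega)
              rwa [hXx ω i, hXx ω' i] at e3
            rw [hj, hXx ω j, hXx ω' j]
            exact X_near F hgj (hball ω ω' (hA ω h3) (hA ω' h4) e1.2 j (by omega) hjn
              fun i hi => x_near F (e6 i hi))
          refine key.trans ?_
          rw [he]
          simp only
          rw [if_neg hln, if_neg hln2, e4, if_neg hj1]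
          have p1 : (1 : ℝ) ≤ 2 ^ (J - G j) := one_le_pow₀ (by norm_num)
          have h3 := hlog (2 * (C * 2 ^ (J - G j) + 1) + 1) (2 * C + 3) (J - G j) (by nlinarith)
            (by positivity) (by linarith) (by linarith)
          rw [Nat.cast_sub hgj] at h3
          exact h3
  have h2' : CH q (fun ω (l : Fin n₀) => F.X J ω (c l)) Y ≤
      CH q (lo (n₁ + 1 + n₀) X) (fun ω => (lo 0 X ω, Y ω)) := by
    refine le_trans (CH_mono_cond hq.nonneg (W' := Y) (W := fun ω => (lo 0 X ω, Y ω))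
      fun ω ω' _ _ e => ?_) (CH_mono_left hq.nonneg fun ω ω' _ _ e => ?_)
    · have e0 : lo 0 X ω = lo 0 X ω' := lo_ext fun l hl => absurd hl (Nat.not_lt_zero l)
      exact Prod.ext e0 e
    · have e1 := (Prod.ext_iff.1 e).1
      funext l
      have hl := l.2
      have e3 := lo_eq e1 (show n₁ + 1 + l < n₁ + 1 + n₀ by omega)
      rwa [hXx ω l, hXx ω' l] at e3
  refine h2'.trans (h1'.trans (le_of_eq ?_))
  have hs1 : ∑ l ∈ range n₁, e l = (n₁ - 1) * (((a : ℝ) + t) * Real.log 2) + n₁ * K' := by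
    have h3 : ∀ l ∈ range n₁, e l = (((a : ℝ) + t) * Real.log 2 + K') -
        (if l = p then ((a : ℝ) + t) * Real.log 2 else 0) := fun l hl => by
      rw [he]
      simp only
      rw [if_pos (mem_range.1 hl)]
      split_ifs <;> ring
    rw [Finset.sum_congr rfl h3, Finset.sum_sub_distrib, Finset.sum_const, Finset.card_range,
      nsmul_eq_mul, Finset.sum_ite_eq' (range n₁) p, if_pos (mem_range.2 hp)]
    ring
  have hs2 : ∑ l ∈ range n₀, e (n₁ + 1 + l) =
      (∑ l ∈ range n₁, ((J : ℝ) - g l)) * Real.log 2 - n₁ * (a * Real.log 2) +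
        (∑ l ∈ Finset.Ico n₁ n₀, ((J : ℝ) - G l)) * Real.log 2 + n₀ * K' := by
    obtain ⟨r, hr⟩ : ∃ r, n₀ = n₁ + r := ⟨n₀ - n₁, by omega⟩
    rw [hr, Finset.sum_range_add, Finset.sum_Ico_eq_sum_range]
    have e5 : n₁ + r - n₁ = r := by omega
    rw [e5]
    have h3 : ∀ l ∈ range n₁, e (n₁ + 1 + l) = ((J : ℝ) - g l) * Real.log 2 -
        a * Real.log 2 + K' := fun l hl => by
      have hl' := mem_range.1 hl
      rw [he]
      simp only
      have e4 : n₁ + 1 + l - n₁ - 1 = l := by omega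
      rw [if_neg (by omega), if_neg (by omega), e4, if_pos hl']
      ring
    have h4 : ∀ l ∈ range r, e (n₁ + 1 + (n₁ + l)) = ((J : ℝ) - G (n₁ + l)) * Real.log 2 +
        K' := fun l hl => by
      rw [he]
      simp only
      have e4 : n₁ + 1 + (n₁ + l) - n₁ - 1 = n₁ + l := by omega
      rw [if_neg (by omega), if_neg (by omega), e4, if_neg (by omega)]
    rw [Finset.sum_congr rfl h3, Finset.sum_congr rfl h4, Finset.sum_add_distrib,
      Finset.sum_sub_distrib, Finset.sum_add_distrib, Finset.sum_const, Finset.sum_const,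
      Finset.sum_const, Finset.card_range, Finset.card_range, nsmul_eq_mul, nsmul_eq_mul,
      nsmul_eq_mul, ← Finset.sum_mul, ← Finset.sum_mul]
    push_cast
    ring
  have hs3 : e n₁ = K' := by
    rw [he]
    simp only
    rw [if_neg (lt_irrefl _), if_pos trivial]
  have hs4 : ∑ l ∈ Finset.Ico 0 (n₁ + 1 + n₀), e l = (∑ l ∈ range n₁, e l) + e n₁ +
      ∑ l ∈ range n₀, e (n₁ + 1 + l) := by
    rw [← Finset.range_eq_Ico, Finset.sum_range_add, Finset.sum_range_succ]
  rw [hs4, hs1, hs2, hs3, ← hK]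
  ring

end Pool.NSL89
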